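import Mathlib
import Pool.Agent.Helper21.Cut.Defs

/-!
# Cutting words (MP_86dbc7_gt): geometric definitions

Closed curves of a Riemannian surface, their lengths and contractions; the metric properties of a
Riemannian surface which are used; statements of the geometric packets.
-/

open Set Metric Bundle
open scoped ENNReal NNReal unitInterval Topology Manifold ContDiff Bundle

universe u

namespace Pool.Agent.Helper57.Cut

/-! ### closed curves -/

section curves

variable {M : Type*} [PseudoEMetricSpace M]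

/-- length of a closed curve, a map from the circle `ℝ / ℤ` to `M` -/
noncomputable def loopLength (c : AddCircle (1 : ℝ) → M) : ℝ≥0∞ :=
  eVariationOn (fun t : ℝ => c (t : AddCircle (1 : ℝ))) (Icc 0 1)

/-- the closed curve `c` can be contracted through curves of length less than `L` -/
def ContractsBelow (L : ℝ) (c : C(AddCircle (1 : ℝ), M)) : Prop :=
  ∃ H : C(I × AddCircle (1 : ℝ), M), (∀ s, H (0, s) = c s) ∧ (∃ x, ∀ s, H (1, s) = x) ∧
    ∀ t, loopLength (fun s => H (t, s)) < ENNReal.ofReal L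

/-- the closed curve `m c`, which runs `m` times along `c` -/
def multiple (m : ℕ) (c : C(AddCircle (1 : ℝ), M)) : C(AddCircle (1 : ℝ), M) :=
  ⟨fun s => c (m • s), c.continuous.comp (continuous_const_smul m)⟩

/-- length of a path -/
noncomputable def len {a b : M} (p : Path a b) : ℝ≥0∞ := eVariationOn p univ

/-- free homotopy of two closed paths through closed paths of length less than `L` -/
def FH (L : ℝ≥0∞) {a b : M} (p : Path a a) (q : Path b b) : Prop :=
  ∃ F : C(I × I, M), (∀ s, F (0, s) = p s) ∧ (∀ s, F (1, s) = q s) ∧ (∀ t, F (t, 0) = F (t, 1)) ∧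
    ∀ t, eVariationOn (fun s => F (t, s)) univ < L

end curves

/-! ### surfaces -/

/-- twice the oriented area of the triangle `a b c` of the plane -/
def det3 (a b c : ℂ) : ℝ := (b.re - a.re) * (c.im - a.im) - (b.im - a.im) * (c.re - a.re)

/-- A manifold modelled on the plane is orientable if it has an atlas of smooth charts all of whose
coordinate changes have positive Jacobian determinant. -/
def Orientable (M : Type*) [TopologicalSpace M] [ChartedSpace (EuclideanSpace ℝ (Fin 2)) M] :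
    Prop :=
  ∃ A : Set (OpenPartialHomeomorph M (EuclideanSpace ℝ (Fin 2))),
    A ⊆ IsManifold.maximalAtlas (𝓡 2) ∞ M ∧ (∀ x, ∃ e ∈ A, x ∈ e.source) ∧
    ∀ e ∈ A, ∀ e' ∈ A, ∀ y ∈ (e.symm ≫ₕ e').source, 0 < (fderiv ℝ (e.symm ≫ₕ e') y).det

/-- The metric properties of an oriented Riemannian surface which are used: it is a length space, and
for every `C > 1` it has `C`-bi-Lipschitz charts `Φ x` near all points `x`, coherent in
orientation. -/
structure ESurface (M : Type*) [EMetricSpace M] : Prop where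
  length : ∀ (x y : M) (L : ℝ≥0∞), edist x y < L → ∃ p : Path x y, len p < L
  chart : ∀ C : ℝ≥0, 1 < C → ∃ (Φ : M → M → ℂ) (r : M → ℝ≥0), (∀ x, 0 < r x) ∧
    (∀ x, ∀ y ∈ eball x (r x), ∀ z ∈ eball x (r x),
      edist (Φ x y) (Φ x z) ≤ C * edist y z ∧ edist y z ≤ C * edist (Φ x y) (Φ x z)) ∧
    (∀ x, ∃ s > 0, ball (Φ x x) s ⊆ Φ x '' eball x (r x)) ∧
    (∀ x x' q, q ∈ eball x (r x) → q ∈ eball x' (r x') → ∀ c : ℝ, 0 < c → ∃ s : ℝ≥0, 0 < s ∧
      ∀ u ∈ eball q s, ∀ v ∈ eball q s, ∀ w ∈ eball q s,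
        c * (dist (Φ x u) (Φ x v) * dist (Φ x u) (Φ x w)) ≤ det3 (Φ x u) (Φ x v) (Φ x w) →
        0 < det3 (Φ x u) (Φ x v) (Φ x w) → 0 < det3 (Φ x' u) (Φ x' v) (Φ x' w))

/-- The same properties in a metric space. -/
structure Surface (M : Type*) [MetricSpace M] : Prop where
  length : ∀ (x y : M) (θ : ℝ), 0 < θ → ∃ p : Path x y, len p < ENNReal.ofReal (dist x y + θ)
  chart : ∀ C : ℝ, 1 < C → ∃ (Φ : M → M → ℂ) (r : M → ℝ), (∀ x, 0 < r x) ∧
    (∀ x, ∀ y ∈ ball x (r x), ∀ z ∈ ball x (r x),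
      dist (Φ x y) (Φ x z) ≤ C * dist y z ∧ dist y z ≤ C * dist (Φ x y) (Φ x z)) ∧
    (∀ x, ∃ s > 0, ball (Φ x x) s ⊆ Φ x '' ball x (r x)) ∧
    (∀ x x' q, q ∈ ball x (r x) → q ∈ ball x' (r x') → ∀ c : ℝ, 0 < c → ∃ s : ℝ, 0 < s ∧
      ∀ u ∈ ball q s, ∀ v ∈ ball q s, ∀ w ∈ ball q s,
        c * (dist (Φ x u) (Φ x v) * dist (Φ x u) (Φ x w)) ≤ det3 (Φ x u) (Φ x v) (Φ x w) →
        0 < det3 (Φ x u) (Φ x v) (Φ x w) → 0 < det3 (Φ x' u) (Φ x' v) (Φ x' w))

/-- Length space, with controlled contraction of pairs of paths in the balls of radius `r` centred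
on `K`. -/
structure Tame {M : Type*} [MetricSpace M] (K : Set M) (r : ℝ) : Prop where
  length : ∀ (x y : M) (θ : ℝ), 0 < θ → ∃ p : Path x y, len p < ENNReal.ofReal (dist x y + θ)
  contract : ∀ x ∈ K, ∀ (a b : M) (p q : Path a b), (∀ t, p t ∈ ball x r) → (∀ t, q t ∈ ball x r) →
    ∃ F : p.Homotopy q, ∀ t, eVariationOn (fun s => F (t, s)) univ ≤ 3 / 2 * max (len p) (len q)

/-! ### statements of the packets -/

/-- Packet GEO-CH -/
def ChartStmt : Prop :=
  ∀ (M : Type u) [EMetricSpace M] [ChartedSpace (EuclideanSpace ℝ (Fin 2)) M]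
    [IsManifold (𝓡 2) ∞ M] [Bundle.RiemannianBundle (fun x : M => TangentSpace (𝓡 2) x)]
    [IsContinuousRiemannianBundle (EuclideanSpace ℝ (Fin 2)) (fun x : M => TangentSpace (𝓡 2) x)]
    [IsRiemannianManifold (𝓡 2) M], Orientable M → ESurface M

/-- Packet GEO-R -/
def RealiseStmt : Prop :=
  ∀ (M : Type u) [MetricSpace M] (K : Set M) (r L δ ρ Λ : ℝ), Tame K r → 0 < δ → 10 * δ ≤ r →
    δ ≤ ρ → 4 * ρ ≤ r → 4 * ρ ≤ L → Λ + 10 * δ ≤ L →
    ∀ γ : C(AddCircle (1 : ℝ), M), loopLength γ ≤ ENNReal.ofReal (L / 2) →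
    ∀ (n : ℕ) (z : ℕ → K), 0 < n →
    (∀ i < n, (z i : M) = γ ((i / n : ℝ) : AddCircle (1 : ℝ))) →
    (∀ i < n, ∀ s ∈ Icc (i / n : ℝ) ((i + 1) / n : ℝ), dist (γ (s : AddCircle (1 : ℝ))) (z i) ≤ δ) →
    ∀ l : List K, Pool.Agent.Helper21.Cut.Conn δ Λ ((List.range n).map z) l →
      Pool.Agent.Helper21.Cut.plen l < ρ → ContractsBelow L γ

/-- Packet GEO-LC -/
def TameStmt : Prop :=
  ∀ (M : Type u) [MetricSpace M], Surface M → ∀ K : Set M, IsCompact K → ∃ r > 0, Tame K r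

end Pool.Agent.Helper57.Cut
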