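import Pool.Agent.Helper21.Cut.NWMoves

/-!
# Labels of closed polygons defined by connectedness (MP_86dbc7_gt)
-/

namespace Pool.Agent.Helper57.Cut

open Pool.Agent.Helper21.Cut

section

variable {X : Type*} [PseudoMetricSpace X]

open Classical in
/-- the label of closed polygons: `1` on the good polygons connected to `g` -/
noncomputable def labC (p : ℕ) (δ Λ : ℝ) (g : List X) (B : List X) : ZMod p :=
  if Conn δ Λ g B ∧ Good δ Λ B then 1 else 0

lemma good_rot {δ Λ : ℝ} {A B : List X} (h : Good δ Λ (A ++ B)) : Good δ Λ (B ++ A) := by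
  obtain ⟨h1, h2, h3⟩ := h
  refine ⟨?_, mesh_rot h2, ?_⟩
  · intro h0
    rw [List.append_eq_nil_iff] at h0
    exact h1 (by rw [h0.1, h0.2]; rfl)
  · rw [plen_rot]; exact h3

lemma conn_rot {δ Λ : ℝ} (A : List X) : ∀ B : List X, Good δ Λ (A ++ B) →
    Conn δ Λ (A ++ B) (B ++ A) := by
  induction A with
  | nil => intro B _; rw [List.append_nil, List.nil_append]; exact Relation.EqvGen.refl _
  | cons a A ih =>
    intro B h
    have h1 : Conn δ Λ (a :: (A ++ B)) ((A ++ B) ++ [a]) :=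
      Relation.EqvGen.rel _ _ (Move.rot a (A ++ B) h)
    have h2 : Good δ Λ (A ++ (B ++ [a])) := by
      rw [← List.append_assoc]
      exact good_rot (A := [a]) (B := A ++ B) h
    have h3 := ih (B ++ [a]) h2
    rw [List.append_assoc] at h1
    have h4 : (B ++ [a]) ++ A = B ++ (a :: A) := by simp
    rw [h4] at h3
    exact Relation.EqvGen.trans _ _ _ h1 h3

theorem labOK_conn (p : ℕ) {δ ρ Λ : ℝ} (g : List X)
    (hlow : ∀ l, Conn δ Λ g l → Good δ Λ l → ρ ≤ plen l) : LabOK δ ρ Λ (labC p δ Λ g) where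
  rot A B := by
    unfold labC
    have key : ∀ A B : List X, (Conn δ Λ g (A ++ B) ∧ Good δ Λ (A ++ B)) →
        (Conn δ Λ g (B ++ A) ∧ Good δ Λ (B ++ A)) := fun A B h =>
      ⟨Relation.EqvGen.trans _ _ _ h.1 (conn_rot A B h.2), good_rot h.2⟩
    by_cases h : Conn δ Λ g (A ++ B) ∧ Good δ Λ (A ++ B)
    · rw [if_pos h, if_pos (key A B h)]
    · rw [if_neg h, if_neg (fun h' => h (key B A h'))]
  low B h := by
    unfold labC at h
    by_cases h' : Conn δ Λ g B ∧ Good δ Λ B
    · exact hlow B h'.1 h'.2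
    · rw [if_neg h'] at h; exact absurd rfl h
  ins z a l h1 h2 h3 h4 := by
    unfold labC
    have g1 : Good δ Λ (a :: l) := ⟨by simp, h1, h3⟩
    have g2 : Good δ Λ (z :: a :: l) := ⟨by simp, h2, h4⟩
    have c : Conn δ Λ (a :: l) (z :: a :: l) := Relation.EqvGen.rel _ _ (Move.ins z a l g1 g2)
    by_cases h : Conn δ Λ g (a :: l)
    · rw [if_pos ⟨Relation.EqvGen.trans _ _ _ h c, g2⟩, if_pos ⟨h, g1⟩]
    · rw [if_neg (fun h' => h (Relation.EqvGen.trans _ _ _ h'.1
        (Relation.EqvGen.symm _ _ c))), if_neg (fun h' => h h'.1)]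

end

end Pool.Agent.Helper57.Cut
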