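import Mathlib
import Pool.Agent.Helper57.Cut.Geo

/-!
# Planar lemmas for weighted Delaunay complexes of nearly flat metric spaces
-/

open Set Metric

namespace Pool.Agent.Helper57.Cut

/-- squared distance in the plane -/
def q (a b : ℂ) : ℝ := (a.re - b.re) ^ 2 + (a.im - b.im) ^ 2

lemma q_eq_dist (a b : ℂ) : q a b = dist a b ^ 2 := by
  rw [Complex.dist_eq, Complex.sq_norm, Complex.normSq_apply, q]
  simp only [Complex.sub_re, Complex.sub_im]
  ring

lemma q_nonneg (a b : ℂ) : 0 ≤ q a b := by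
  unfold q; positivity

lemma q_comm (a b : ℂ) : q a b = q b a := by
  unfold q; ring

lemma det3_rot (a b c : ℂ) : det3 b c a = det3 a b c := by
  unfold det3; ring

lemma det3_swap (a b c : ℂ) : det3 a c b = - det3 a b c := by
  unfold det3; ring

lemma det3_sq_le (a b c : ℂ) : det3 a b c ^ 2 ≤ q a b * q a c := by
  unfold det3 q
  nlinarith [sq_nonneg ((b.re - a.re) * (c.re - a.re) + (b.im - a.im) * (c.im - a.im))]

/-- `q b c ≤ 2 (q x b + q x c)` -/
lemma q_le_two (x b c : ℂ) : q b c ≤ 2 * (q x b + q x c) := by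
  unfold q
  nlinarith [sq_nonneg ((x.re - b.re) + (x.re - c.re)), sq_nonneg ((x.im - b.im) + (x.im - c.im))]

lemma fat_aux {U V W e f : ℝ} (hU : 98 / 100 ≤ U) (hV : 98 / 100 ≤ V) (hW : 98 / 100 ≤ W)
    (hU' : U ≤ 45 / 10) (hV' : V ≤ 45 / 10) (hW' : W ≤ 45 / 10) (he : |e| ≤ 1 / 1000)
    (hf : |f| ≤ 1 / 1000) :
    85 / 100 ≤ (U - e) ^ 2 * V + (V - f) ^ 2 * U - (U - e) * (V - f) * (U + V - W) := by
  have key : (U - e) ^ 2 * V + (V - f) ^ 2 * U - (U - e) * (V - f) * (U + V - W) =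
      U * V * W + e * (V * (V - U - W)) + f * (U * (U - V - W)) + (e ^ 2 * V + f ^ 2 * U)
        - e * f * (U + V - W) := by ring
  rw [key]
  have h1 : |V * (V - U - W)| ≤ 45 / 10 * 9 := by
    rw [abs_mul]
    apply mul_le_mul
    · rw [abs_le]; constructor <;> linarith
    · rw [abs_le]; constructor <;> linarith
    · positivity
    · norm_num
  have h2 : |U * (U - V - W)| ≤ 45 / 10 * 9 := by
    rw [abs_mul]
    apply mul_le_mul
    · rw [abs_le]; constructor <;> linarith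
    · rw [abs_le]; constructor <;> linarith
    · positivity
    · norm_num
  have h3 : |e * (V * (V - U - W))| ≤ 1 / 1000 * (45 / 10 * 9) := by
    rw [abs_mul]; exact mul_le_mul he h1 (abs_nonneg _) (by norm_num)
  have h4 : |f * (U * (U - V - W))| ≤ 1 / 1000 * (45 / 10 * 9) := by
    rw [abs_mul]; exact mul_le_mul hf h2 (abs_nonneg _) (by norm_num)
  have h5 : |e * f * (U + V - W)| ≤ 1 / 1000 * (1 / 1000) * 9 := by
    rw [abs_mul, abs_mul]
    apply mul_le_mul
    · exact mul_le_mul he hf (abs_nonneg _) (by norm_num)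
    · rw [abs_le]; constructor <;> linarith
    · positivity
    · norm_num
  have h6 : (98 / 100) * (98 / 100) * (98 / 100) ≤ U * V * W := by gcongr
  have h7 : 0 ≤ e ^ 2 * V + f ^ 2 * U := by positivity
  have := abs_le.1 h3
  have := abs_le.1 h4
  have := abs_le.1 h5
  norm_num at *
  linarith

/-- three points which are almost at the same distance of a point `x` and are separated form a fat
triangle -/
lemma fat {x a b c : ℂ} (hab : 98 / 100 ≤ q a b) (hac : 98 / 100 ≤ q a c) (hbc : 98 / 100 ≤ q b c)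
    (hx : q x a ≤ 11 / 10) (h1 : |q x b - q x a| ≤ 1 / 1000) (h2 : |q x c - q x a| ≤ 1 / 1000) :
    16 / 100 ≤ det3 a b c ^ 2 := by
  have e1 := abs_le.1 h1
  have e2 := abs_le.1 h2
  have hb : q a b ≤ 45 / 10 := by linarith [q_le_two x a b]
  have hc : q a c ≤ 45 / 10 := by linarith [q_le_two x a c]
  have hbc' : q b c ≤ 45 / 10 := by linarith [q_le_two x b c]
  have key := fat_aux hab hac hbc hb hc hbc' h1 h2
  have id : (q a b - (q x b - q x a)) ^ 2 * q a c + (q a c - (q x c - q x a)) ^ 2 * q a b -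
      (q a b - (q x b - q x a)) * (q a c - (q x c - q x a)) * (q a b + q a c - q b c) =
      4 * q x a * det3 a b c ^ 2 := by
    unfold q det3
    ring
  rw [id] at key
  have : 0 ≤ det3 a b c ^ 2 := sq_nonneg _
  nlinarith

lemma abs_le_of_sq_le {x c : ℝ} (hc : 0 ≤ c) (h : x ^ 2 ≤ c ^ 2) : |x| ≤ c :=
  abs_le_of_sq_le_sq h hc |> fun h => h

lemma le_abs_of_sq_le {x c : ℝ} (hc : 0 ≤ c) (h : c ^ 2 ≤ x ^ 2) : c ≤ |x| := by
  rw [← abs_of_nonneg hc]; exact sq_le_sq.1 h

/-- Cramer bound -/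
lemma cramer_bound {u1 u2 v1 v2 e1 e2 z1 z2 k : ℝ} (hdet : 16 / 100 ≤ (u1 * v2 - u2 * v1) ^ 2)
    (hu : u1 ^ 2 + u2 ^ 2 ≤ 45 / 10) (hv : v1 ^ 2 + v2 ^ 2 ≤ 45 / 10)
    (he : e1 ^ 2 + e2 ^ 2 ≤ 45 / 10)
    (h1 : |z1 * u1 + z2 * u2| ≤ k) (h2 : |z1 * v1 + z2 * v2| ≤ k) :
    |z1 * e1 + z2 * e2| ≤ 45 / 2 * k := by
  have hk : 0 ≤ k := (abs_nonneg _).trans h1
  have d0 : 4 / 10 ≤ |u1 * v2 - u2 * v1| :=
    le_abs_of_sq_le (by norm_num) (by norm_num at *; linarith)
  have dev : |e1 * v2 - e2 * v1| ≤ 45 / 10 := by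
    apply abs_le_of_sq_le (by norm_num)
    nlinarith [sq_nonneg (e1 * v1 + e2 * v2), sq_nonneg e1, sq_nonneg e2, sq_nonneg v1, sq_nonneg v2,
      mul_le_mul he hv (by positivity) (by norm_num)]
  have deu : |e1 * u2 - e2 * u1| ≤ 45 / 10 := by
    apply abs_le_of_sq_le (by norm_num)
    nlinarith [sq_nonneg (e1 * u1 + e2 * u2), sq_nonneg e1, sq_nonneg e2, sq_nonneg u1, sq_nonneg u2,
      mul_le_mul he hu (by positivity) (by norm_num)]
  have key : (u1 * v2 - u2 * v1) * (z1 * e1 + z2 * e2) =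
      (e1 * v2 - e2 * v1) * (z1 * u1 + z2 * u2) - (e1 * u2 - e2 * u1) * (z1 * v1 + z2 * v2) := by
    ring
  have h3 : |u1 * v2 - u2 * v1| * |z1 * e1 + z2 * e2| ≤ 45 / 10 * k + 45 / 10 * k := by
    rw [← abs_mul, key]
    refine (abs_sub _ _).trans ?_
    rw [abs_mul, abs_mul]
    gcongr
  have h4 : 4 / 10 * |z1 * e1 + z2 * e2| ≤ |u1 * v2 - u2 * v1| * |z1 * e1 + z2 * e2| := by
    gcongr
  linarith

/-- the difference of two squared distance functions is affine -/
lemma affine_comb {v b c s x y : ℂ} {α β : ℝ} (hre : s.re - v.re = α * (b.re - v.re) + β * (c.re - v.re))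
    (him : s.im - v.im = α * (b.im - v.im) + β * (c.im - v.im)) :
    (q x s - q y s) - (q x v - q y v) =
      α * ((q x b - q y b) - (q x v - q y v)) + β * ((q x c - q y c) - (q x v - q y v)) := by
  have h1 : s.re = v.re + (α * (b.re - v.re) + β * (c.re - v.re)) := by linarith
  have h2 : s.im = v.im + (α * (b.im - v.im) + β * (c.im - v.im)) := by linarith
  unfold q
  rw [h1, h2]
  ring

/-- coordinates in the basis `b - v, c - v` -/
lemma coords {v b c : ℂ} (hd : det3 v b c ≠ 0) (s : ℂ) :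
    s.re - v.re = (det3 v s c / det3 v b c) * (b.re - v.re) +
      (det3 v b s / det3 v b c) * (c.re - v.re) ∧
    s.im - v.im = (det3 v s c / det3 v b c) * (b.im - v.im) +
      (det3 v b s / det3 v b c) * (c.im - v.im) := by
  constructor
  · field_simp
    unfold det3
    ring
  · field_simp
    unfold det3
    ring

end Pool.Agent.Helper57.Cut
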