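import Mathlib
import Pool.Agent.Helper57.Cut.Planar

/-!
# Arguments of complex numbers and sectors
-/

open Set Metric Real

namespace Pool.Agent.Helper57.Cut

/-- determinant of two vectors -/
def det2 (b c : ℂ) : ℝ := b.re * c.im - b.im * c.re

lemma det2_eq (b c : ℂ) : det2 b c = ‖b‖ * ‖c‖ * Real.sin (c.arg - b.arg) := by
  rw [Real.sin_sub]
  have h1 := Complex.norm_mul_cos_arg b
  have h2 := Complex.norm_mul_sin_arg b
  have h3 := Complex.norm_mul_cos_arg c
  have h4 := Complex.norm_mul_sin_arg c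
  unfold det2
  rw [← h1, ← h2, ← h3, ← h4]
  ring

lemma det2_pos_of {b c : ℂ} (hb : b ≠ 0) (hc : c ≠ 0)
    (h : (0 < c.arg - b.arg ∧ c.arg - b.arg < π) ∨ c.arg - b.arg < -π) : 0 < det2 b c := by
  rw [det2_eq]
  have hb' : 0 < ‖b‖ := norm_pos_iff.2 hb
  have hc' : 0 < ‖c‖ := norm_pos_iff.2 hc
  have : 0 < Real.sin (c.arg - b.arg) := by
    rcases h with h | h
    · exact Real.sin_pos_of_pos_of_lt_pi h.1 h.2
    · rw [← Real.sin_add_two_pi]
      have h1 := Complex.neg_pi_lt_arg c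
      have h2 := Complex.arg_le_pi b
      exact Real.sin_pos_of_pos_of_lt_pi (by linarith) (by linarith)
  positivity

lemma of_det2_pos {b c : ℂ} (h : 0 < det2 b c) :
    (0 < c.arg - b.arg ∧ c.arg - b.arg < π) ∨ c.arg - b.arg < -π := by
  rw [det2_eq] at h
  by_contra hcon
  push Not at hcon
  have h1 := Complex.neg_pi_lt_arg c
  have h2 := Complex.arg_le_pi b
  have h3 := Complex.neg_pi_lt_arg b
  have h4 := Complex.arg_le_pi c
  have hs : Real.sin (c.arg - b.arg) ≤ 0 := by
    rcases le_or_gt (c.arg - b.arg) 0 with h0 | h0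
    · exact Real.sin_nonpos_of_nonpos_of_neg_pi_le h0 hcon.2
    · have h5 := hcon.1 h0
      rw [← Real.sin_sub_two_pi]
      exact Real.sin_nonpos_of_nonpos_of_neg_pi_le (by linarith) (by linarith)
  have : ‖b‖ * ‖c‖ * Real.sin (c.arg - b.arg) ≤ 0 :=
    mul_nonpos_of_nonneg_of_nonpos (by positivity) hs
  linarith

/-- cyclic consecutiveness of `b, c` in terms of arguments, if no vector lies in the open sector
between them -/
lemma sector {b c : ℂ} (h : 0 < det2 b c) :
    (b.arg < c.arg ∧ ∀ x : ℂ, x ≠ 0 → ¬ (0 < det2 b x ∧ 0 < det2 x c) →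
      x.arg ≤ b.arg ∨ c.arg ≤ x.arg) ∨
    (c.arg < b.arg ∧ ∀ x : ℂ, x ≠ 0 → ¬ (0 < det2 b x ∧ 0 < det2 x c) →
      c.arg ≤ x.arg ∧ x.arg ≤ b.arg) := by
  have hb : b ≠ 0 := by rintro rfl; simp [det2] at h
  have hc : c ≠ 0 := by rintro rfl; simp [det2] at h
  have hpi := Real.pi_pos
  rcases of_det2_pos h with h1 | h1
  · left
    refine ⟨by linarith, fun x hx hcon => ?_⟩
    by_contra h2
    push Not at h2
    exact hcon ⟨det2_pos_of hb hx (Or.inl ⟨by linarith, by linarith⟩),
      det2_pos_of hx hc (Or.inl ⟨by linarith, by linarith⟩)⟩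
  · right
    have h3 := Complex.neg_pi_lt_arg c
    have h4 := Complex.arg_le_pi b
    refine ⟨by linarith, fun x hx hcon => ?_⟩
    have h5 := Complex.neg_pi_lt_arg x
    have h6 := Complex.arg_le_pi x
    constructor
    · by_contra h2
      push Not at h2
      exact hcon ⟨det2_pos_of hb hx (Or.inr (by linarith)),
        det2_pos_of hx hc (Or.inl ⟨by linarith, by linarith⟩)⟩
    · by_contra h2
      push Not at h2
      exact hcon ⟨det2_pos_of hb hx (Or.inl ⟨by linarith, by linarith⟩),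
        det2_pos_of hx hc (Or.inr (by linarith))⟩

/-- vectors with the same argument are proportional -/
lemma arg_eq {a b : ℂ} (ha : a ≠ 0) (hb : b ≠ 0) (h : a.arg = b.arg) :
    det2 b a = 0 ∧ 0 < b.re * a.re + b.im * a.im := by
  constructor
  · rw [det2_eq, h]; simp
  · have h1 := Complex.norm_mul_cos_arg b
    have h2 := Complex.norm_mul_sin_arg b
    have h3 := Complex.norm_mul_cos_arg a
    have h4 := Complex.norm_mul_sin_arg a
    rw [← h1, ← h2, ← h3, ← h4, h]
    have hb' : 0 < ‖b‖ := norm_pos_iff.2 hb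
    have ha' : 0 < ‖a‖ := norm_pos_iff.2 ha
    have : ‖b‖ * Real.cos b.arg * (‖a‖ * Real.cos b.arg) +
        ‖b‖ * Real.sin b.arg * (‖a‖ * Real.sin b.arg) =
        ‖b‖ * ‖a‖ * (Real.sin b.arg ^ 2 + Real.cos b.arg ^ 2) := by ring
    rw [this, Real.sin_sq_add_cos_sq]
    positivity

lemma det3_eq_det2 (v b c : ℂ) : det3 v b c = det2 (b - v) (c - v) := by
  simp [det3, det2]

end Pool.Agent.Helper57.Cut
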