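import Mathlib
import Pool.Agent.Helper57.Cut.Geo

/-!
# From extended metric spaces to metric spaces: components
-/

open Set Metric
open scoped ENNReal NNReal unitInterval Topology

namespace Pool.Agent.Helper57.Cut

universe u

variable {M : Type u} [EMetricSpace M]

/-- the component of `x₀`: points at finite distance -/
def Comp (x₀ : M) : Type u := {y : M // edist x₀ y < ⊤}

instance (x₀ : M) : EMetricSpace (Comp x₀) := inferInstanceAs (EMetricSpace {y : M // edist x₀ y < ⊤})

lemma Comp.edist_ne_top {x₀ : M} (x y : Comp x₀) : edist x y ≠ ⊤ := by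
  have h : edist (x.1 : M) y.1 ≤ edist (x.1 : M) x₀ + edist x₀ y.1 := edist_triangle _ _ _
  have h1 : edist (x.1 : M) x₀ < ⊤ := by rw [edist_comm]; exact x.2
  exact (h.trans_lt (ENNReal.add_lt_top.2 ⟨h1, y.2⟩)).ne

noncomputable instance (x₀ : M) : MetricSpace (Comp x₀) :=
  EMetricSpace.toMetricSpace Comp.edist_ne_top

lemma Comp.edist_val {x₀ : M} (x y : Comp x₀) : edist x y = edist x.1 y.1 := rfl

lemma Comp.continuous_val {x₀ : M} : Continuous (fun x : Comp x₀ => x.1) := continuous_subtype_val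

lemma Comp.edist_ofReal {x₀ : M} (x y : Comp x₀) : edist x.1 y.1 = ENNReal.ofReal (dist x y) := by
  rw [← Comp.edist_val, edist_dist]

lemma Comp.mem_ball_iff {x₀ : M} (x y : Comp x₀) (r : ℝ≥0) :
    y ∈ ball x (r : ℝ) ↔ y.1 ∈ eball x.1 (r : ℝ≥0∞) := by
  rw [mem_ball, mem_eball, Comp.edist_ofReal, ENNReal.ofReal_lt_coe_iff dist_nonneg]

lemma Comp.val_mem_of_eball {x₀ : M} (x : Comp x₀) {y : M} {r : ℝ≥0} (hy : y ∈ eball x.1 (r : ℝ≥0∞)) :
    edist x₀ y < ⊤ := by
  rw [mem_eball] at hy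
  have h1 : edist x.1 y < ⊤ := by rw [edist_comm]; exact hy.trans ENNReal.coe_lt_top
  exact (edist_triangle x₀ x.1 y).trans_lt (ENNReal.add_lt_top.2 ⟨x.2, h1⟩)

/-- lift of a continuous map with values in the component -/
def Comp.lift {x₀ : M} {T : Type*} [TopologicalSpace T] (f : C(T, M)) (h : ∀ t, edist x₀ (f t) < ⊤) :
    C(T, Comp x₀) :=
  ⟨fun t => ⟨f t, h t⟩, Continuous.subtype_mk f.continuous _⟩

lemma Comp.eVariationOn_val {x₀ : M} {α : Type*} [LinearOrder α] (f : α → Comp x₀) (s : Set α) :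
    eVariationOn (fun t => (f t).1) s = eVariationOn f s := rfl

/-- a connected set meeting the component of `x₀` is contained in it -/
lemma Comp.mem_of_connected {x₀ : M} {T : Type*} [TopologicalSpace T] [PreconnectedSpace T]
    (f : C(T, M)) (t₀ : T) (h : edist x₀ (f t₀) < ⊤) (t : T) : edist x₀ (f t) < ⊤ := by
  have hclopen : IsClopen {y : M | edist x₀ y < ⊤} := by
    constructor
    · rw [← isOpen_compl_iff, EMetric.isOpen_iff]
      intro y hy
      refine ⟨1, one_pos, fun z hz => ?_⟩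
      simp only [mem_compl_iff, mem_setOf_eq, not_lt, top_le_iff] at hy ⊢
      by_contra hz'
      have h1 : edist x₀ z < ⊤ := lt_top_iff_ne_top.2 hz'
      have h2 : edist z y < ⊤ := (mem_eball.1 hz).trans ENNReal.one_lt_top
      have := (edist_triangle x₀ z y).trans_lt (ENNReal.add_lt_top.2 ⟨h1, h2⟩)
      exact this.ne hy
    · rw [EMetric.isOpen_iff]
      intro y hy
      refine ⟨1, one_pos, fun z hz => ?_⟩
      simp only [mem_setOf_eq] at hy ⊢
      have h2 : edist y z < ⊤ := by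
        rw [edist_comm]; exact (mem_eball.1 hz).trans ENNReal.one_lt_top
      exact (edist_triangle x₀ y z).trans_lt (ENNReal.add_lt_top.2 ⟨hy, h2⟩)
  have h2 : IsClopen (f ⁻¹' {y : M | edist x₀ y < ⊤}) := hclopen.preimage f.continuous
  have h3 := h2.eq_univ ⟨t₀, h⟩
  have : t ∈ f ⁻¹' {y : M | edist x₀ y < ⊤} := by rw [h3]; trivial
  exact this

/-- the components of an `ESurface` are `Surface`s -/
theorem ESurface.comp (h : ESurface M) (x₀ : M) : Surface (Comp x₀) := by
  constructor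
  · intro x y θ hθ
    have h1 : edist x.1 y.1 < ENNReal.ofReal (dist x y + θ) := by
      rw [Comp.edist_ofReal]
      exact (ENNReal.ofReal_lt_ofReal_iff (by positivity)).2 (by linarith)
    obtain ⟨p, hp⟩ := h.length x.1 y.1 _ h1
    have hp2 : ∀ t, edist x₀ (p t) < ⊤ := by
      intro t
      have e1 : edist (p 0) (p t) ≤ len p := eVariationOn.edist_le p (mem_univ _) (mem_univ _)
      rw [p.source] at e1
      have e2 : edist x.1 (p t) < ⊤ := e1.trans_lt (hp.trans ENNReal.ofReal_lt_top)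
      exact (edist_triangle x₀ x.1 (p t)).trans_lt (ENNReal.add_lt_top.2 ⟨x.2, e2⟩)
    refine ⟨⟨Comp.lift p.toContinuousMap hp2, ?_, ?_⟩, ?_⟩
    · apply Subtype.ext; exact p.source
    · apply Subtype.ext; exact p.target
    · exact hp
  · intro C hC
    obtain ⟨Φ, r, hr, hbi, hs, hor⟩ := h.chart C.toNNReal (by simpa using hC)
    have hC0 : (0 : ℝ) ≤ C := by linarith
    refine ⟨fun x y => Φ x.1 y.1, fun x => r x.1, fun x => by exact_mod_cast hr x.1, ?_, ?_, ?_⟩
    · intro x y hy z hz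
      rw [Comp.mem_ball_iff] at hy hz
      obtain ⟨b1, b2⟩ := hbi x.1 y.1 hy z.1 hz
      rw [Comp.edist_ofReal, edist_dist, ← ENNReal.ofReal_coe_nnreal,
        ← ENNReal.ofReal_mul (by positivity), Real.coe_toNNReal _ hC0] at b1 b2
      exact ⟨(ENNReal.ofReal_le_ofReal_iff (by positivity)).1 b1,
        (ENNReal.ofReal_le_ofReal_iff (by positivity)).1 b2⟩
    · intro x
      obtain ⟨s, hs0, hs⟩ := hs x.1
      refine ⟨s, hs0, fun z hz => ?_⟩
      obtain ⟨y, hy, hyz⟩ := hs hz
      exact ⟨⟨y, Comp.val_mem_of_eball x hy⟩, (Comp.mem_ball_iff _ _ _).2 hy, hyz⟩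
    · intro x x' q hq hq' c hc
      rw [Comp.mem_ball_iff] at hq hq'
      obtain ⟨s, hs0, hs⟩ := hor x.1 x'.1 q.1 hq hq' c hc
      refine ⟨s, by exact_mod_cast hs0, fun u hu v hv w hw => ?_⟩
      rw [Comp.mem_ball_iff] at hu hv hw
      exact hs u.1 hu v.1 hv w.1 hw

/-- transfer of contractions from the component to the space -/
lemma ContractsBelow.of_comp {x₀ : M} {L : ℝ} {c : C(AddCircle (1 : ℝ), Comp x₀)}
    (h : ContractsBelow L c) :
    ContractsBelow L (⟨fun s => (c s).1, Comp.continuous_val.comp c.continuous⟩ :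
      C(AddCircle (1 : ℝ), M)) := by
  obtain ⟨H, h0, ⟨x, h1⟩, h2⟩ := h
  refine ⟨⟨fun s => (H s).1, Comp.continuous_val.comp H.continuous⟩, ?_, ⟨x.1, ?_⟩, ?_⟩
  · intro s
    change (H (0, s)).1 = (c s).1
    rw [h0]
  · intro s
    change (H (1, s)).1 = x.1
    rw [h1]
  · intro t
    exact h2 t

end Pool.Agent.Helper57.Cut
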