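import Mathlib
import Pool.Agent.Helper57.Cut.Angle

/-!
# Weighted Delaunay complex of a net in a nearly flat surface
-/

open Set Metric

namespace Pool.Agent.Helper57.Cut

variable {K : Type*}

/-- `d` is a (pseudo)metric (at scale 1), `P` a separated net, `ψ v` an almost isometric chart on the
ball of radius 4 around `v`; the charts are coherent in orientation on fat triangles -/
structure Flat (d : K → K → ℝ) (ψ : K → K → ℂ) (P : Finset K) : Prop where
  symm : ∀ x y, d x y = d y x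
  nonneg : ∀ x y, 0 ≤ d x y
  self : ∀ x, d x x = 0
  tri : ∀ x y z, d x z ≤ d x y + d y z
  net : ∀ x, ∃ p ∈ P, d x p ≤ 1
  sep : ∀ p ∈ P, ∀ p' ∈ P, p ≠ p' → 1 ≤ d p p'
  chart : ∀ v x y, d v x ≤ 4 → d v y ≤ 4 → |q (ψ v x) (ψ v y) - d x y ^ 2| ≤ 1 / 10 ^ 15
  orient : ∀ v v' a b c, d v a ≤ 4 → d v b ≤ 4 → d v c ≤ 4 → d v' a ≤ 4 → d v' b ≤ 4 →
    d v' c ≤ 4 → 4 / 10 ≤ det3 (ψ v a) (ψ v b) (ψ v c) → 0 < det3 (ψ v' a) (ψ v' b) (ψ v' c)

/-- power of `x` with respect to the weighted point `p` -/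
def pw (d : K → K → ℝ) (w : K → ℝ) (p x : K) : ℝ := d x p ^ 2 - w p

/-- relaxed weighted Voronoi cells -/
def cell (d : K → K → ℝ) (P : Finset K) (w : K → ℝ) (v : K) : Set K :=
  {x | v ∈ P ∧ ∀ p ∈ P, pw d w v x ≤ pw d w p x + 1 / 10 ^ 15}

/-- genericity of the weights on `S` -/
def Gen (d : K → K → ℝ) (w : K → ℝ) (S : Finset K) : Prop :=
  ∀ (x : K) (m : ℝ) (T : Finset K), T ⊆ S →
    (∀ p ∈ T, d x p ^ 2 ≤ 101 / 100 ∧ m ≤ pw d w p x ∧ pw d w p x ≤ m + 1 / 10 ^ 12) → T.card ≤ 3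

variable {d : K → K → ℝ} {ψ : K → K → ℂ} {P : Finset K} {w : K → ℝ}

section basic

variable (h : Flat d ψ P) (hw : ∀ p, 0 ≤ w p ∧ w p ≤ 1 / 10 ^ 4)

include h hw

lemma cell_sq {v x : K} (hx : x ∈ cell d P w v) : d x v ^ 2 ≤ 101 / 100 := by
  obtain ⟨p, hp, hxp⟩ := h.net x
  have h1 := hx.2 p hp
  unfold pw at h1
  have h2 := h.nonneg x p
  have h3 : d x p ^ 2 ≤ 1 := by nlinarith
  have := (hw v).2
  have := (hw p).1
  linarith

lemma cell_dist {v x : K} (hx : x ∈ cell d P w v) : d x v ≤ 101 / 100 := by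
  have h1 := cell_sq h hw hx
  have h2 := h.nonneg x v
  nlinarith

lemma cell_dist' {v x : K} (hx : x ∈ cell d P w v) : d v x ≤ 101 / 100 := by
  rw [h.symm]; exact cell_dist h hw hx

lemma nbr_dist {v a x : K} (hx : x ∈ cell d P w v) (hx' : x ∈ cell d P w a) :
    d v a ≤ 202 / 100 := by
  have h1 := cell_dist' h hw hx
  have h2 := cell_dist h hw hx'
  have := h.tri v x a
  linarith

omit hw in
lemma chart_le {v x y : K} (hx : d v x ≤ 4) (hy : d v y ≤ 4) :
    q (ψ v x) (ψ v y) ≤ d x y ^ 2 + 1 / 10 ^ 15 ∧ d x y ^ 2 - 1 / 10 ^ 15 ≤ q (ψ v x) (ψ v y) := by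
  have := abs_le.1 (h.chart v x y hx hy)
  constructor <;> linarith

omit hw in
lemma sep_q {v a b : K} (ha : a ∈ P) (hb : b ∈ P) (hab : a ≠ b) (hva : d v a ≤ 4)
    (hvb : d v b ≤ 4) : 98 / 100 ≤ q (ψ v a) (ψ v b) := by
  have h1 := h.sep a ha b hb hab
  have h2 := (chart_le h hva hvb).2
  have h3 : 1 ≤ d a b ^ 2 := by nlinarith
  linarith

/-- a triple of separated points almost at the same power of a point is fat -/
lemma fat' {v a b c x : K} (ha : a ∈ P) (hb : b ∈ P) (hc : c ∈ P) (hab : a ≠ b) (hac : a ≠ c)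
    (hbc : b ≠ c) (hva : d v a ≤ 4) (hvb : d v b ≤ 4) (hvc : d v c ≤ 4) (hvx : d v x ≤ 4)
    (hxa : d x a ^ 2 ≤ 101 / 100) (h1 : |pw d w b x - pw d w a x| ≤ 1 / 10 ^ 4)
    (h2 : |pw d w c x - pw d w a x| ≤ 1 / 10 ^ 4) :
    16 / 100 ≤ det3 (ψ v a) (ψ v b) (ψ v c) ^ 2 := by
  have wa := hw a
  have wb := hw b
  have wc := hw c
  have e1 := abs_le.1 h1
  have e2 := abs_le.1 h2
  have ca := chart_le h hvx hva
  have cb := chart_le h hvx hvb
  have cc := chart_le h hvx hvc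
  unfold pw at e1 e2
  refine fat (x := ψ v x) (sep_q h ha hb hab hva hvb) (sep_q h ha hc hac hva hvc)
    (sep_q h hb hc hbc hvb hvc) ?_ ?_ ?_
  · linarith
  · rw [abs_le]; constructor <;> linarith
  · rw [abs_le]; constructor <;> linarith

omit h hw in
lemma pw_close {v b x : K} (hv : x ∈ cell d P w v) (hb : x ∈ cell d P w b) :
    |pw d w b x - pw d w v x| ≤ 1 / 10 ^ 15 := by
  have h1 := hv.2 b hb.1
  have h2 := hb.2 v hv.1
  rw [abs_le]; constructor <;> linarith

/-- `Face` triples are fat -/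
lemma fat_cell {v a b c x : K} (hab : a ≠ b) (hac : a ≠ c)
    (hbc : b ≠ c) (hva : d v a ≤ 4) (hvb : d v b ≤ 4) (hvc : d v c ≤ 4) (hvx : d v x ≤ 4)
    (xa : x ∈ cell d P w a) (xb : x ∈ cell d P w b) (xc : x ∈ cell d P w c) :
    16 / 100 ≤ det3 (ψ v a) (ψ v b) (ψ v c) ^ 2 := by
  refine fat' h hw xa.1 xb.1 xc.1 hab hac hbc hva hvb hvc hvx (cell_sq h hw xa) ?_ ?_
  · exact (pw_close xa xb).trans (by norm_num)
  · exact (pw_close xa xc).trans (by norm_num)

/-- upper bound for the affine function -/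
lemma aff_upper {v b x y : K} (xv : x ∈ cell d P w v) (xb : x ∈ cell d P w b)
    (yv : y ∈ cell d P w v) :
    (q (ψ v x) (ψ v b) - q (ψ v y) (ψ v b)) - (q (ψ v x) (ψ v v) - q (ψ v y) (ψ v v)) ≤
      6 / 10 ^ 15 := by
  have hvx : d v x ≤ 4 := (cell_dist' h hw xv).trans (by norm_num)
  have hvy : d v y ≤ 4 := (cell_dist' h hw yv).trans (by norm_num)
  have hvb : d v b ≤ 4 := (nbr_dist h hw xv xb).trans (by norm_num)
  have hvv : d v v ≤ 4 := by rw [h.self]; norm_num
  have c1 := chart_le h hvx hvb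
  have c2 := chart_le h hvy hvb
  have c3 := chart_le h hvx hvv
  have c4 := chart_le h hvy hvv
  have h1 := xb.2 v xv.1
  have h2 := yv.2 b xb.1
  unfold pw at h1 h2
  linarith

/-- lower bound for the affine function -/
lemma aff_lower {v s x y : K} (xv : x ∈ cell d P w v) (ys : y ∈ cell d P w s)
    (yv : y ∈ cell d P w v) :
    pw d w s x - pw d w v x - 5 / 10 ^ 15 ≤
    (q (ψ v x) (ψ v s) - q (ψ v y) (ψ v s)) - (q (ψ v x) (ψ v v) - q (ψ v y) (ψ v v)) := by
  have hvx : d v x ≤ 4 := (cell_dist' h hw xv).trans (by norm_num)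
  have hvy : d v y ≤ 4 := (cell_dist' h hw yv).trans (by norm_num)
  have hvs : d v s ≤ 4 := (nbr_dist h hw yv ys).trans (by norm_num)
  have hvv : d v v ≤ 4 := by rw [h.self]; norm_num
  have c1 := chart_le h hvx hvs
  have c2 := chart_le h hvy hvs
  have c3 := chart_le h hvx hvv
  have c4 := chart_le h hvy hvv
  have h2 := ys.2 v yv.1
  unfold pw at h2 ⊢
  linarith

omit hw in
lemma q_le_of {v a b : K} (ha : d v a ≤ 4) (hb : d v b ≤ 4) (hab : d a b ≤ 202 / 100) :
    q (ψ v a) (ψ v b) ≤ 45 / 10 := by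
  have h1 := (chart_le h ha hb).1
  have h2 := h.nonneg a b
  have h3 : d a b ^ 2 ≤ (202 / 100) ^ 2 := by nlinarith
  linarith

/-- no neighbour in the open sector of a face -/
lemma no_sector (hgen : Gen d w P) {v b c s x y : K} (hvb : v ≠ b) (hvc : v ≠ c) (hbc : b ≠ c)
    (hvs : v ≠ s) (xv : x ∈ cell d P w v) (xb : x ∈ cell d P w b) (xc : x ∈ cell d P w c)
    (yv : y ∈ cell d P w v) (ys : y ∈ cell d P w s)
    (hpos : 0 < det3 (ψ v v) (ψ v b) (ψ v c)) :
    ¬ (0 < det3 (ψ v v) (ψ v b) (ψ v s) ∧ 0 < det3 (ψ v v) (ψ v s) (ψ v c)) := by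
  rintro ⟨h1, h2⟩
  classical
  have hvv : d v v ≤ 4 := by rw [h.self]; norm_num
  have dvx : d v x ≤ 4 := (cell_dist' h hw xv).trans (by norm_num)
  have dvb := nbr_dist h hw xv xb
  have dvc := nbr_dist h hw xv xc
  have dvs := nbr_dist h hw yv ys
  have dvb4 : d v b ≤ 4 := dvb.trans (by norm_num)
  have dvc4 : d v c ≤ 4 := dvc.trans (by norm_num)
  have dvs4 : d v s ≤ 4 := dvs.trans (by norm_num)
  -- s is different from b and c
  have hsb : s ≠ b := by
    rintro rfl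
    have : det3 (ψ v v) (ψ v s) (ψ v s) = 0 := by unfold det3; ring
    linarith
  have hsc : s ≠ c := by
    rintro rfl
    have : det3 (ψ v v) (ψ v s) (ψ v s) = 0 := by unfold det3; ring
    linarith
  have hfat := fat_cell h hw hvb hvc hbc hvv dvb4 dvc4 dvx xv xb xc
  have hD : 4 / 10 ≤ det3 (ψ v v) (ψ v b) (ψ v c) := by
    have := le_abs_of_sq_le (c := 4 / 10) (by norm_num) (by linarith : (4 / 10 : ℝ) ^ 2 ≤ det3 (ψ v v) (ψ v b) (ψ v c) ^ 2)
    rwa [abs_of_pos hpos] at this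
  have qb := q_le_of h hvv dvb4 dvb
  have qc := q_le_of h hvv dvc4 dvc
  have qs := q_le_of h hvv dvs4 dvs
  have bound1 : det3 (ψ v v) (ψ v b) (ψ v s) ≤ 45 / 10 := by
    refine (le_abs_self _).trans (abs_le_of_sq_le (by norm_num) ?_)
    refine (det3_sq_le _ _ _).trans ?_
    rw [sq]
    exact mul_le_mul qb qs (q_nonneg _ _) (by norm_num)
  have bound2 : det3 (ψ v v) (ψ v s) (ψ v c) ≤ 45 / 10 := by
    refine (le_abs_self _).trans (abs_le_of_sq_le (by norm_num) ?_)
    refine (det3_sq_le _ _ _).trans ?_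
    rw [sq]
    exact mul_le_mul qs qc (q_nonneg _ _) (by norm_num)
  obtain ⟨hre, him⟩ := coords hpos.ne' (ψ v s)
  have comb := affine_comb (x := ψ v x) (y := ψ v y) hre him
  set α := det3 (ψ v v) (ψ v s) (ψ v c) / det3 (ψ v v) (ψ v b) (ψ v c) with hα
  set β := det3 (ψ v v) (ψ v b) (ψ v s) / det3 (ψ v v) (ψ v b) (ψ v c) with hβ
  have α0 : 0 ≤ α := (div_pos h2 hpos).le
  have β0 : 0 ≤ β := (div_pos h1 hpos).le
  have α1 : α ≤ 12 := by
    rw [hα, div_le_iff₀ hpos]; linarith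
  have β1 : β ≤ 12 := by
    rw [hβ, div_le_iff₀ hpos]; linarith
  have u1 := aff_upper h hw xv xb yv
  have u2 := aff_upper h hw xv xc yv
  have l1 := aff_lower h hw xv ys yv
  rw [comb] at l1
  have l2 : pw d w s x - pw d w v x ≤ 149 / 10 ^ 15 := by
    have m1 : α * ((q (ψ v x) (ψ v b) - q (ψ v y) (ψ v b)) - (q (ψ v x) (ψ v v) - q (ψ v y) (ψ v v)))
        ≤ 12 * (6 / 10 ^ 15) := by
      refine (mul_le_mul_of_nonneg_left u1 α0).trans ?_
      gcongr
    have m2 : β * ((q (ψ v x) (ψ v c) - q (ψ v y) (ψ v c)) - (q (ψ v x) (ψ v v) - q (ψ v y) (ψ v v)))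
        ≤ 12 * (6 / 10 ^ 15) := by
      refine (mul_le_mul_of_nonneg_left u2 β0).trans ?_
      gcongr
    linarith
  have sP := ys.1
  have hs_lower := xv.2 s sP
  have hb_close := abs_le.1 (pw_close xv xb)
  have hc_close := abs_le.1 (pw_close xv xc)
  have hcard := hgen x (pw d w v x - 1 / 10 ^ 15) {v, b, c, s} (by
      intro t ht
      simp only [Finset.mem_insert, Finset.mem_singleton] at ht
      rcases ht with rfl | rfl | rfl | rfl
      exacts [xv.1, xb.1, xc.1, sP]) (by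
      intro t ht
      simp only [Finset.mem_insert, Finset.mem_singleton] at ht
      rcases ht with rfl | rfl | rfl | rfl
      · exact ⟨cell_sq h hw xv, by linarith, by linarith⟩
      · refine ⟨cell_sq h hw xb, by linarith, by linarith⟩
      · refine ⟨cell_sq h hw xc, by linarith, by linarith⟩
      · refine ⟨?_, by linarith, by linarith⟩
        obtain ⟨p, hp, hxp⟩ := h.net x
        have h1 := xv.2 p hp
        unfold pw at h1 l2
        have h2 := h.nonneg x p
        have h3 : d x p ^ 2 ≤ 1 := by nlinarith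
        have := (hw t).2
        have := (hw p).1
        linarith)
  have : ({v, b, c, s} : Finset K).card = 4 := by
    rw [Finset.card_insert_of_notMem, Finset.card_insert_of_notMem, Finset.card_insert_of_notMem,
      Finset.card_singleton]
    · simpa using hsc.symm
    · simp only [Finset.mem_insert, Finset.mem_singleton, not_or]; exact ⟨hbc, hsb.symm⟩
    · simp only [Finset.mem_insert, Finset.mem_singleton, not_or]; exact ⟨hvb, hvc, hvs⟩
  omega

/-- neighbours have different directions -/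
lemma key_inj' {v a b x y : K} (hva : v ≠ a) (hvb : v ≠ b) (xv : x ∈ cell d P w v)
    (xb : x ∈ cell d P w b) (yv : y ∈ cell d P w v) (ya : y ∈ cell d P w a)
    (harg : (ψ v a - ψ v v).arg = (ψ v b - ψ v v).arg) : a = b := by
  by_contra hab
  have hvv : d v v ≤ 4 := by rw [h.self]; norm_num
  have dvx : d v x ≤ 4 := (cell_dist' h hw xv).trans (by norm_num)
  have dvb := nbr_dist h hw xv xb
  have dva := nbr_dist h hw yv ya
  have dvb4 : d v b ≤ 4 := dvb.trans (by norm_num)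
  have dva4 : d v a ≤ 4 := dva.trans (by norm_num)
  have qb1 := sep_q h xv.1 xb.1 hvb hvv dvb4
  have qa1 := sep_q h xv.1 ya.1 hva hvv dva4
  have qb2 := q_le_of h hvv dvb4 dvb
  have qa2 := q_le_of h hvv dva4 dva
  have na : ψ v a - ψ v v ≠ 0 := by
    intro h0
    have : ψ v a = ψ v v := sub_eq_zero.1 h0
    rw [this] at qa1
    unfold q at qa1
    norm_num at qa1
  have nb : ψ v b - ψ v v ≠ 0 := by
    intro h0
    have : ψ v b = ψ v v := sub_eq_zero.1 h0
    rw [this] at qb1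
    unfold q at qb1
    norm_num at qb1
  obtain ⟨hdet, hinner⟩ := arg_eq na nb harg
  simp only [Complex.sub_re, Complex.sub_im, det2] at hdet hinner
  -- proportionality factor
  set Q := q (ψ v v) (ψ v b) with hQ
  have hQ' : Q = ((ψ v b).re - (ψ v v).re) ^ 2 + ((ψ v b).im - (ψ v v).im) ^ 2 := by
    rw [hQ]; unfold q; ring
  have hQpos : 0 < Q := by linarith
  set N := ((ψ v b).re - (ψ v v).re) * ((ψ v a).re - (ψ v v).re) +
    ((ψ v b).im - (ψ v v).im) * ((ψ v a).im - (ψ v v).im) with hN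
  have hre : (ψ v a).re - (ψ v v).re = (N / Q) * ((ψ v b).re - (ψ v v).re) +
      0 * ((ψ v b).re - (ψ v v).re) := by
    rw [zero_mul, add_zero, div_mul_eq_mul_div, eq_div_iff hQpos.ne', hN, hQ']
    linear_combination (-((ψ v b).im - (ψ v v).im)) * hdet
  have him : (ψ v a).im - (ψ v v).im = (N / Q) * ((ψ v b).im - (ψ v v).im) +
      0 * ((ψ v b).im - (ψ v v).im) := by
    rw [zero_mul, add_zero, div_mul_eq_mul_div, eq_div_iff hQpos.ne', hN, hQ']
    linear_combination ((ψ v b).re - (ψ v v).re) * hdet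
  have comb := affine_comb (x := ψ v x) (y := ψ v y) hre him
  have hN2 : N ^ 2 ≤ Q * q (ψ v v) (ψ v a) := by
    rw [hQ', hN]
    unfold q
    nlinarith [sq_nonneg (((ψ v b).re - (ψ v v).re) * ((ψ v a).im - (ψ v v).im) -
      ((ψ v b).im - (ψ v v).im) * ((ψ v a).re - (ψ v v).re))]
  have hN3 : N ≤ 45 / 10 := by
    refine (le_abs_self _).trans (abs_le_of_sq_le (by norm_num) (hN2.trans ?_))
    rw [sq]
    exact mul_le_mul qb2 qa2 (q_nonneg _ _) (by norm_num)
  have hβ0 : 0 ≤ N / Q := (div_pos hinner hQpos).le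
  have hβ1 : N / Q ≤ 12 := by
    rw [div_le_iff₀ hQpos]; linarith
  have u1 := aff_upper h hw xv xb yv
  have l1 := aff_lower h hw xv ya yv
  rw [comb, zero_mul, add_zero] at l1
  have l2 : pw d w a x - pw d w v x ≤ 77 / 10 ^ 15 := by
    have m1 : (N / Q) * ((q (ψ v x) (ψ v b) - q (ψ v y) (ψ v b)) -
        (q (ψ v x) (ψ v v) - q (ψ v y) (ψ v v))) ≤ 12 * (6 / 10 ^ 15) := by
      refine (mul_le_mul_of_nonneg_left u1 hβ0).trans ?_
      gcongr
    linarith
  have hl := xv.2 a ya.1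
  have hfat := fat' h hw xv.1 xb.1 ya.1 hvb hva (Ne.symm hab) hvv dvb4 dva4 dvx (cell_sq h hw xv)
    ((pw_close xv xb).trans (by norm_num)) (by
      rw [abs_le]; constructor
      · linarith
      · linarith)
  have : det3 (ψ v v) (ψ v b) (ψ v a) = 0 := by
    unfold det3
    linarith
  rw [this] at hfat
  norm_num at hfat

end basic

end Pool.Agent.Helper57.Cut
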