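import Mathlib
import Pool.Agent.Helper57.Cut.Net

/-!
# Generic weights
-/

open Set Metric

namespace Pool.Agent.Helper57.Cut

variable {K : Type*} {d : K → K → ℝ} {ψ : K → K → ℂ} {P : Finset K} {w : K → ℝ}

/-- planar computation: two points `X, X'` with almost the same differences of squared distances to
`a, b, c` have almost the same difference of squared distances to `p` and `a` -/
lemma plane_two {a b c p X X' : ℂ} {k : ℝ} (hdet : 16 / 100 ≤ det3 a b c ^ 2)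
    (hab : q a b ≤ 45 / 10) (hac : q a c ≤ 45 / 10) (hap : q a p ≤ 45 / 10)
    (h1 : |(q X a - q X b) - (q X' a - q X' b)| ≤ k)
    (h2 : |(q X a - q X c) - (q X' a - q X' c)| ≤ k) :
    |(q X a - q X p) - (q X' a - q X' p)| ≤ 45 / 2 * k := by
  have e1 : (X.re - X'.re) * (2 * (b.re - a.re)) + (X.im - X'.im) * (2 * (b.im - a.im)) =
      (q X a - q X b) - (q X' a - q X' b) := by unfold q; ring
  have e2 : (X.re - X'.re) * (2 * (c.re - a.re)) + (X.im - X'.im) * (2 * (c.im - a.im)) =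
      (q X a - q X c) - (q X' a - q X' c) := by unfold q; ring
  have e3 : (X.re - X'.re) * (2 * (p.re - a.re)) + (X.im - X'.im) * (2 * (p.im - a.im)) =
      (q X a - q X p) - (q X' a - q X' p) := by unfold q; ring
  have h1' : |(2 * (X.re - X'.re)) * (b.re - a.re) + (2 * (X.im - X'.im)) * (b.im - a.im)| ≤ k := by
    rw [← e1] at h1
    convert h1 using 2
    ring
  have h2' : |(2 * (X.re - X'.re)) * (c.re - a.re) + (2 * (X.im - X'.im)) * (c.im - a.im)| ≤ k := by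
    rw [← e2] at h2
    convert h2 using 2
    ring
  have := cramer_bound (e1 := p.re - a.re) (e2 := p.im - a.im) (by simpa [det3] using hdet)
    (by unfold q at hab; linarith [sq_nonneg (a.re - b.re), (by ring : (b.re - a.re) ^ 2 = (a.re - b.re) ^ 2), (by ring : (b.im - a.im) ^ 2 = (a.im - b.im) ^ 2)])
    (by unfold q at hac; linarith [(by ring : (c.re - a.re) ^ 2 = (a.re - c.re) ^ 2), (by ring : (c.im - a.im) ^ 2 = (a.im - c.im) ^ 2)])
    (by unfold q at hap; linarith [(by ring : (p.re - a.re) ^ 2 = (a.re - p.re) ^ 2), (by ring : (p.im - a.im) ^ 2 = (a.im - p.im) ^ 2)])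
    h1' h2'
  rw [← e3]
  convert this using 2
  ring

/-- two bad weights for the same triple are close -/
lemma two_bad (h : Flat d ψ P) (hw : ∀ p, 0 ≤ w p ∧ w p ≤ 1 / 10 ^ 4) {a b c p x x' : K}
    {t t' m m' : ℝ} (ha : a ∈ P) (hb : b ∈ P) (hc : c ∈ P) (hab : a ≠ b) (hac : a ≠ c)
    (hbc : b ≠ c)
    (xa : d x a ^ 2 ≤ 101 / 100 ∧ m ≤ pw d w a x ∧ pw d w a x ≤ m + 1 / 10 ^ 12)
    (xb : d x b ^ 2 ≤ 101 / 100 ∧ m ≤ pw d w b x ∧ pw d w b x ≤ m + 1 / 10 ^ 12)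
    (xc : d x c ^ 2 ≤ 101 / 100 ∧ m ≤ pw d w c x ∧ pw d w c x ≤ m + 1 / 10 ^ 12)
    (xp : d x p ^ 2 ≤ 101 / 100 ∧ m ≤ d x p ^ 2 - t ∧ d x p ^ 2 - t ≤ m + 1 / 10 ^ 12)
    (xa' : d x' a ^ 2 ≤ 101 / 100 ∧ m' ≤ pw d w a x' ∧ pw d w a x' ≤ m' + 1 / 10 ^ 12)
    (xb' : d x' b ^ 2 ≤ 101 / 100 ∧ m' ≤ pw d w b x' ∧ pw d w b x' ≤ m' + 1 / 10 ^ 12)
    (xc' : d x' c ^ 2 ≤ 101 / 100 ∧ m' ≤ pw d w c x' ∧ pw d w c x' ≤ m' + 1 / 10 ^ 12)
    (xp' : d x' p ^ 2 ≤ 101 / 100 ∧ m' ≤ d x' p ^ 2 - t' ∧ d x' p ^ 2 - t' ≤ m' + 1 / 10 ^ 12) :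
    |t - t'| ≤ 9 / 10 ^ 11 := by
  have small : ∀ {y z : K}, d y z ^ 2 ≤ 101 / 100 → d y z ≤ 101 / 100 := by
    intro y z hyz
    have := h.nonneg y z
    nlinarith
  have hpx : d p x ≤ 101 / 100 := by rw [h.symm]; exact small xp.1
  have hpx' : d p x' ≤ 101 / 100 := by rw [h.symm]; exact small xp'.1
  have hpa : d p a ≤ 202 / 100 := by linarith [h.tri p x a, small xa.1]
  have hpb : d p b ≤ 202 / 100 := by linarith [h.tri p x b, small xb.1]
  have hpc : d p c ≤ 202 / 100 := by linarith [h.tri p x c, small xc.1]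
  have hpp : d p p ≤ 4 := by rw [h.self]; norm_num
  have hpa4 : d p a ≤ 4 := by linarith
  have hpb4 : d p b ≤ 4 := by linarith
  have hpc4 : d p c ≤ 4 := by linarith
  have hpx4 : d p x ≤ 4 := by linarith
  have hpx4' : d p x' ≤ 4 := by linarith
  have dab : d a b ≤ 202 / 100 := by
    have h1 := h.tri a x b
    rw [h.symm a x] at h1
    linarith [small xa.1, small xb.1]
  have dac : d a c ≤ 202 / 100 := by
    have h1 := h.tri a x c
    rw [h.symm a x] at h1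
    linarith [small xa.1, small xc.1]
  have dap : d a p ≤ 202 / 100 := by rw [h.symm]; exact hpa
  have hfat := fat' h hw ha hb hc hab hac hbc hpa4 hpb4 hpc4 hpx4 xa.1
    (by rw [abs_le]; constructor <;> linarith [xa.2.1, xa.2.2, xb.2.1, xb.2.2])
    (by rw [abs_le]; constructor <;> linarith [xa.2.1, xa.2.2, xc.2.1, xc.2.2])
  have c1 := chart_le h hpx4 hpa4
  have c2 := chart_le h hpx4 hpb4
  have c3 := chart_le h hpx4 hpc4
  have c4 := chart_le h hpx4 hpp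
  have c1' := chart_le h hpx4' hpa4
  have c2' := chart_le h hpx4' hpb4
  have c3' := chart_le h hpx4' hpc4
  have c4' := chart_le h hpx4' hpp
  unfold pw at xa xb xc xa' xb' xc'
  obtain ⟨-, a1, a2⟩ := xa
  obtain ⟨-, b1, b2⟩ := xb
  obtain ⟨-, e1, e2⟩ := xc
  obtain ⟨-, p1, p2⟩ := xp
  obtain ⟨-, a1', a2'⟩ := xa'
  obtain ⟨-, b1', b2'⟩ := xb'
  obtain ⟨-, e1', e2'⟩ := xc'
  obtain ⟨-, p1', p2'⟩ := xp'
  have key := plane_two (p := ψ p p) (X := ψ p x) (X' := ψ p x') (k := 3 / 10 ^ 12) hfat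
    (q_le_of h hpa4 hpb4 dab) (q_le_of h hpa4 hpc4 dac) (q_le_of h hpa4 hpp dap)
    (by rw [abs_le]; constructor <;> linarith)
    (by rw [abs_le]; constructor <;> linarith)
  have key' := abs_le.1 key
  rw [abs_le]; constructor <;> linarith

/-- packing: at most 100 points of the net at distance at most 202/100 of a point -/
lemma packing (h : Flat d ψ P) (p : K) (S : Finset K) (hS : S ⊆ P)
    (hd : ∀ a ∈ S, d p a ≤ 202 / 100) : S.card ≤ 100 := by
  classical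
  have hpp : d p p ≤ 4 := by rw [h.self]; norm_num
  let f : K → ℤ × ℤ := fun a => (⌊2 * ((ψ p a).re - (ψ p p).re)⌋, ⌊2 * ((ψ p a).im - (ψ p p).im)⌋)
  have hmaps : ∀ a ∈ S, f a ∈ (Finset.Icc (-5 : ℤ) 4) ×ˢ (Finset.Icc (-5 : ℤ) 4) := by
    intro a ha
    have ha4 : d p a ≤ 4 := (hd a ha).trans (by norm_num)
    have h1 := q_le_of h hpp ha4 (by simpa using hd a ha)
    unfold q at h1
    have hre : |(ψ p a).re - (ψ p p).re| ≤ 22 / 10 :=
      abs_le_of_sq_le (by norm_num) (by nlinarith [sq_nonneg ((ψ p p).im - (ψ p a).im)])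
    have him : |(ψ p a).im - (ψ p p).im| ≤ 22 / 10 :=
      abs_le_of_sq_le (by norm_num) (by nlinarith [sq_nonneg ((ψ p p).re - (ψ p a).re)])
    have hre' := abs_le.1 hre
    have him' := abs_le.1 him
    simp only [f, Finset.mem_product, Finset.mem_Icc]
    refine ⟨⟨?_, ?_⟩, ⟨?_, ?_⟩⟩
    · rw [Int.le_floor]; push_cast; linarith
    · rw [← Int.lt_add_one_iff, Int.floor_lt]; push_cast; linarith
    · rw [Int.le_floor]; push_cast; linarith
    · rw [← Int.lt_add_one_iff, Int.floor_lt]; push_cast; linarith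
  have hinj : Set.InjOn f S := by
    intro a ha b hb hab
    by_contra hne
    have ha4 : d p a ≤ 4 := (hd a ha).trans (by norm_num)
    have hb4 : d p b ≤ 4 := (hd b hb).trans (by norm_num)
    have h1 := sep_q h (hS ha) (hS hb) hne ha4 hb4
    simp only [f, Prod.mk.injEq] at hab
    have r1 := Int.abs_sub_lt_one_of_floor_eq_floor hab.1
    have r2 := Int.abs_sub_lt_one_of_floor_eq_floor hab.2
    have r1' := abs_lt.1 r1
    have r2' := abs_lt.1 r2
    unfold q at h1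
    have s1 : ((ψ p a).re - (ψ p b).re) ^ 2 ≤ (1 / 2) ^ 2 := by
      apply sq_le_sq'
      · linarith
      · linarith
    have s2 : ((ψ p a).im - (ψ p b).im) ^ 2 ≤ (1 / 2) ^ 2 := by
      apply sq_le_sq'
      · linarith
      · linarith
    linarith
  calc S.card ≤ ((Finset.Icc (-5 : ℤ) 4) ×ˢ (Finset.Icc (-5 : ℤ) 4)).card :=
        Finset.card_le_card_of_injOn f hmaps hinj
    _ = 100 := by simp

/-- the weight of a new point can be chosen such that the weights remain generic -/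
lemma exists_weight (h : Flat d ψ P) (hw : ∀ p, 0 ≤ w p ∧ w p ≤ 1 / 10 ^ 4) (p : K)
    {S : Finset K} (hS : S ⊆ P) :
    ∃ t : ℝ, 0 ≤ t ∧ t ≤ 1 / 10 ^ 4 ∧
      ∀ (x : K) (m : ℝ) (T : Finset K), T ⊆ S →
      (∀ p ∈ T, d x p ^ 2 ≤ 101 / 100 ∧ m ≤ pw d w p x ∧ pw d w p x ≤ m + 1 / 10 ^ 12) →
      (d x p ^ 2 ≤ 101 / 100 ∧ m ≤ d x p ^ 2 - t ∧ d x p ^ 2 - t ≤ m + 1 / 10 ^ 12) →
      T.card ≤ 2 := by
  classical
  by_contra hcon
  push Not at hcon
  -- all the candidates are bad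
  have hbad : ∀ j : ℕ, j ∈ Finset.range (10 ^ 6 + 1) → ∃ (τ : K × K × K) (x : K) (m : ℝ),
      τ.1 ∈ S ∧ τ.2.1 ∈ S ∧ τ.2.2 ∈ S ∧ τ.1 ≠ τ.2.1 ∧ τ.1 ≠ τ.2.2 ∧ τ.2.1 ≠ τ.2.2 ∧
      (d x τ.1 ^ 2 ≤ 101 / 100 ∧ m ≤ pw d w τ.1 x ∧ pw d w τ.1 x ≤ m + 1 / 10 ^ 12) ∧
      (d x τ.2.1 ^ 2 ≤ 101 / 100 ∧ m ≤ pw d w τ.2.1 x ∧ pw d w τ.2.1 x ≤ m + 1 / 10 ^ 12) ∧
      (d x τ.2.2 ^ 2 ≤ 101 / 100 ∧ m ≤ pw d w τ.2.2 x ∧ pw d w τ.2.2 x ≤ m + 1 / 10 ^ 12) ∧
      (d x p ^ 2 ≤ 101 / 100 ∧ m ≤ d x p ^ 2 - (j : ℝ) / 10 ^ 10 ∧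
        d x p ^ 2 - (j : ℝ) / 10 ^ 10 ≤ m + 1 / 10 ^ 12) := by
    intro j hj
    rw [Finset.mem_range] at hj
    have hj' : (j : ℝ) ≤ 10 ^ 6 := by
      have : j ≤ 10 ^ 6 := by omega
      exact_mod_cast this
    obtain ⟨x, m, T, hT, hT2, hp2, hcard⟩ := hcon ((j : ℝ) / 10 ^ 10) (by positivity) (by
      rw [div_le_div_iff₀ (by norm_num) (by norm_num)]; linarith)
    obtain ⟨a, b, c, ha, hb, hc, hab, hac, hbc⟩ := Finset.two_lt_card_iff.1 hcard
    exact ⟨(a, b, c), x, m, hT ha, hT hb, hT hc, hab, hac, hbc, hT2 a ha, hT2 b hb, hT2 c hc, hp2⟩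
  have : Nonempty K := ⟨p⟩
  choose! τ X m h1 h2 h3 h4 h5 h6 h7 h8 h9 h10 using hbad
  let B := S.filter (fun a => d p a ≤ 202 / 100)
  have hB : B.card ≤ 100 := packing h p B ((Finset.filter_subset _ _).trans hS)
    (fun a ha => (Finset.mem_filter.1 ha).2)
  have small : ∀ {y z : K}, d y z ^ 2 ≤ 101 / 100 → d y z ≤ 101 / 100 := by
    intro y z hyz
    have := h.nonneg y z
    nlinarith
  have near : ∀ {x a : K}, d x a ^ 2 ≤ 101 / 100 → d x p ^ 2 ≤ 101 / 100 → d p a ≤ 202 / 100 := by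
    intro x a hxa hxp
    have e1 := h.tri p x a
    rw [h.symm p x] at e1
    linarith [small hxa, small hxp]
  have hmaps : ∀ j ∈ Finset.range (10 ^ 6 + 1), τ j ∈ B ×ˢ B ×ˢ B := by
    intro j hj
    simp only [Finset.mem_product, B, Finset.mem_filter]
    exact ⟨⟨h1 j hj, near (h7 j hj).1 (h10 j hj).1⟩, ⟨h2 j hj, near (h8 j hj).1 (h10 j hj).1⟩,
      ⟨h3 j hj, near (h9 j hj).1 (h10 j hj).1⟩⟩
  have hcard : (B ×ˢ B ×ˢ B).card < (Finset.range (10 ^ 6 + 1)).card := by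
    rw [Finset.card_product, Finset.card_product, Finset.card_range]
    have : B.card * (B.card * B.card) ≤ 100 * (100 * 100) := by gcongr
    omega
  obtain ⟨i, hi, j, hj, hij, heq⟩ := Finset.exists_ne_map_eq_of_card_lt_of_maps_to hcard hmaps
  have key := two_bad (p := p) h hw (hS (h1 i hi)) (hS (h2 i hi)) (hS (h3 i hi)) (h4 i hi) (h5 i hi)
    (h6 i hi) (h7 i hi) (h8 i hi) (h9 i hi) (h10 i hi) (by rw [heq]; exact h7 j hj)
    (by rw [heq]; exact h8 j hj) (by rw [heq]; exact h9 j hj) (h10 j hj)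
  have hij' : (1 : ℝ) ≤ |(i : ℝ) - j| := by
    have h1 : (i : ℤ) - j ≠ 0 := by
      intro h0
      exact hij (by omega)
    have := Int.one_le_abs h1
    exact_mod_cast this
  have e : (i : ℝ) / 10 ^ 10 - j / 10 ^ 10 = ((i : ℝ) - j) / 10 ^ 10 := by ring
  rw [e, abs_div, abs_of_pos (by norm_num : (0 : ℝ) < 10 ^ 10), div_le_iff₀ (by norm_num)] at key
  norm_num at key
  linarith

/-- existence of generic weights -/
theorem exists_gen (h : Flat d ψ P) :
    ∃ w : K → ℝ, (∀ p, 0 ≤ w p ∧ w p ≤ 1 / 10 ^ 4) ∧ Gen d w P := by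
  classical
  suffices H : ∀ S : Finset K, S ⊆ P →
      ∃ w : K → ℝ, (∀ p, 0 ≤ w p ∧ w p ≤ 1 / 10 ^ 4) ∧ Gen d w S from H P (Finset.Subset.refl _)
  intro S
  induction S using Finset.induction_on with
  | empty =>
    intro _
    refine ⟨fun _ => 0, fun _ => ⟨le_refl _, by norm_num⟩, ?_⟩
    intro x m T hT _
    rw [Finset.subset_empty.1 hT]
    simp
  | insert p S hp ih =>
    intro hS
    have hS' : S ⊆ P := (Finset.subset_insert _ _).trans hS
    obtain ⟨w, hw, hgen⟩ := ih hS'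
    obtain ⟨t, ht0, ht1, ht⟩ := exists_weight h hw p hS'
    refine ⟨Function.update w p t, ?_, ?_⟩
    · intro p'
      by_cases hpp : p' = p
      · subst hpp; simp [ht0]; simpa using ht1
      · simp only [Function.update_of_ne hpp]; exact hw p'
    · intro x m T hT hT2
      have hrest : ∀ p' ∈ T.erase p, d x p' ^ 2 ≤ 101 / 100 ∧ m ≤ pw d w p' x ∧
          pw d w p' x ≤ m + 1 / 10 ^ 12 := by
        intro p' hp'
        rw [Finset.mem_erase] at hp'
        have := hT2 p' hp'.2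
        simpa [pw, Function.update_of_ne hp'.1] using this
      have hsub : T.erase p ⊆ S := by
        intro y hy
        rw [Finset.mem_erase] at hy
        rcases Finset.mem_insert.1 (hT hy.2) with h0 | h0
        · exact absurd h0 hy.1
        · exact h0
      by_cases hpT : p ∈ T
      · have := ht x m (T.erase p) hsub hrest (by simpa [pw] using hT2 p hpT)
        have hc := Finset.card_erase_add_one hpT
        omega
      · have := hgen x m (T.erase p) hsub hrest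
        rwa [Finset.erase_eq_of_notMem hpT] at this

end Pool.Agent.Helper57.Cut
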