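import Mathlib
import Pool.Agent.Helper57.Cut.Weights

/-!
# Covers with surface nerve from nets
-/

open Set Metric

namespace Pool.Agent.Helper57.Cut

open Pool.Agent.Helper21.Cut

variable {K : Type*} {d : K → K → ℝ} {ψ : K → K → ℂ} {P : Finset K} {w : K → ℝ}

/-- every point has a neighbourhood of uniform size inside a cell -/
lemma lebesgue_cell (h : Flat d ψ P) (hw : ∀ p, 0 ≤ w p ∧ w p ≤ 1 / 10 ^ 4) (x : K) :
    ∃ v, ∀ y, d x y ≤ 1 / 10 ^ 16 → y ∈ cell d P w v := by
  obtain ⟨p0, hp0, hxp0⟩ := h.net x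
  obtain ⟨v, hvP, hv⟩ := Finset.exists_min_image P (fun p => pw d w p x) ⟨p0, hp0⟩
  refine ⟨v, fun y hy => ⟨hvP, fun p hp => ?_⟩⟩
  have n1 := h.nonneg x v
  have n2 := h.nonneg y v
  have n3 := h.nonneg x p
  have n4 := h.nonneg y p
  have n5 := h.nonneg x y
  have hvx : pw d w v x ≤ 1 := by
    have h1 := hv p0 hp0
    have h2 := h.nonneg x p0
    have := (hw p0).1
    unfold pw at h1 ⊢
    nlinarith
  have dvx : d x v ≤ 101 / 100 := by
    have := (hw v).2
    unfold pw at hvx
    nlinarith
  have tr1 : d y v ≤ d x v + 1 / 10 ^ 16 := by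
    have := h.tri y x v
    rw [h.symm y x] at this
    linarith
  have sq1 : d y v ^ 2 ≤ d x v ^ 2 + 3 / 10 ^ 16 := by
    have : d y v ^ 2 ≤ (d x v + 1 / 10 ^ 16) ^ 2 := by gcongr
    nlinarith
  have upper : pw d w v y ≤ pw d w v x + 3 / 10 ^ 16 := by unfold pw; linarith
  by_cases hxp : d x p ≤ 2
  · have tr2 : d x p ≤ d y p + 1 / 10 ^ 16 := by
      have := h.tri x y p
      linarith
    have sq2 : d x p ^ 2 ≤ d y p ^ 2 + 5 / 10 ^ 16 := by
      have h1 : d x p ^ 2 ≤ (d y p + 1 / 10 ^ 16) ^ 2 := by gcongr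
      have h2 : d y p ≤ 21 / 10 := by
        have := h.tri y x p
        rw [h.symm y x] at this
        linarith
      nlinarith
    have hmin := hv p hp
    unfold pw at hmin upper ⊢
    linarith
  · push Not at hxp
    have tr2 : 19 / 10 ≤ d y p := by
      have := h.tri x y p
      linarith
    have sq2 : 3 ≤ d y p ^ 2 := by nlinarith
    have := (hw p).2
    unfold pw at upper hvx ⊢
    linarith

/-- the cover by the relaxed weighted Voronoi cells -/
theorem cover_of_flat {K : Type*} [PseudoMetricSpace K] {ψ : K → K → ℂ} {P : Finset K}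
    {ε δ : ℝ} (hε : 0 < ε) (hδ : 3 * ε ≤ δ) (h : Flat (fun x y : K => dist x y / ε) ψ P) :
    ∃ (C : Cover K K δ) (r : ℝ), 0 < r ∧ ∀ x, ∃ v, ball x r ⊆ C.U v := by
  obtain ⟨w, hw, hgen⟩ := exists_gen h
  set d : K → K → ℝ := fun x y => dist x y / ε with hd
  have hvv : ∀ v, d v v ≤ 4 := fun v => by rw [h.self]; norm_num
  let C : Cover K K δ :=
    { U := cell d P w
      key := fun v a => (ψ v a - ψ v v).arg
      Face := fun a b c => a ≠ b ∧ a ≠ c ∧ b ≠ c ∧ (cell d P w a ∩ cell d P w b ∩ cell d P w c).Nonempty ∧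
        0 < det3 (ψ a a) (ψ a b) (ψ a c)
      diam := by
        intro v x hx y hy
        have h1 := cell_dist' h hw hx
        have h2 := cell_dist' h hw hy
        have h3 := h.tri x v y
        rw [h.symm x v] at h3
        have h4 : d x y ≤ 3 := by linarith
        rw [hd] at h4
        simp only [div_le_iff₀ hε] at h4
        linarith
      key_inj := by
        rintro v a b hva ⟨y, yv, ya⟩ hvb ⟨x, xv, xb⟩ hkey
        exact key_inj' h hw hva hvb xv xb yv ya hkey
      face_rot := by
        rintro a b c ⟨hab, hac, hbc, ⟨x, ⟨xa, xb⟩, xc⟩, hpos⟩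
        refine ⟨hbc, hab.symm, hac.symm, ⟨x, ⟨xb, xc⟩, xa⟩, ?_⟩
        have dab := nbr_dist h hw xa xb
        have dac := nbr_dist h hw xa xc
        have dbc := nbr_dist h hw xb xc
        have dba := nbr_dist h hw xb xa
        have dax := cell_dist' h hw xa
        have hfat := fat_cell h hw hab hac hbc (hvv a) (dab.trans (by norm_num))
          (dac.trans (by norm_num)) (dax.trans (by norm_num)) xa xb xc
        have hD : 4 / 10 ≤ det3 (ψ a a) (ψ a b) (ψ a c) := by
          have := le_abs_of_sq_le (c := 4 / 10) (by norm_num)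
            (by linarith : (4 / 10 : ℝ) ^ 2 ≤ det3 (ψ a a) (ψ a b) (ψ a c) ^ 2)
          rwa [abs_of_pos hpos] at this
        have := h.orient a b a b c (hvv a) (dab.trans (by norm_num)) (dac.trans (by norm_num))
          (dba.trans (by norm_num)) (hvv b) (dbc.trans (by norm_num)) hD
        rwa [← det3_rot] at this
      face_next := by
        rintro v b c ⟨hvb, hvc, hbc, ⟨x, ⟨xv, xb⟩, xc⟩, hpos⟩
        have hpos' : 0 < det2 (ψ v b - ψ v v) (ψ v c - ψ v v) := by rwa [← det3_eq_det2]
        have main : ∀ s, v ≠ s → (cell d P w v ∩ cell d P w s).Nonempty →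
            ψ v s - ψ v v ≠ 0 ∧ ¬ (0 < det2 (ψ v b - ψ v v) (ψ v s - ψ v v) ∧
              0 < det2 (ψ v s - ψ v v) (ψ v c - ψ v v)) := by
          rintro s hvs ⟨y, yv, ys⟩
          constructor
          · intro h0
            have hs : ψ v s = ψ v v := sub_eq_zero.1 h0
            have dvs := nbr_dist h hw yv ys
            have := sep_q h yv.1 ys.1 hvs (hvv v) (dvs.trans (by norm_num))
            rw [hs] at this
            unfold q at this
            norm_num at this
          · rw [← det3_eq_det2, ← det3_eq_det2]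
            exact no_sector h hw hgen hvb hvc hbc hvs xv xb xc yv ys hpos
        rcases sector hpos' with ⟨h1, h2⟩ | ⟨h1, h2⟩
        · left
          exact ⟨h1, fun s hvs hs => h2 _ (main s hvs hs).1 (main s hvs hs).2⟩
        · right
          exact ⟨h1, fun s hvs hs => h2 _ (main s hvs hs).1 (main s hvs hs).2⟩
      face_of_mem := by
        intro a b c x hab hbc hac xa xb xc
        have dab := nbr_dist h hw xa xb
        have dac := nbr_dist h hw xa xc
        have dax := cell_dist' h hw xa
        have hfat := fat_cell h hw hab hac hbc (hvv a) (dab.trans (by norm_num))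
          (dac.trans (by norm_num)) (dax.trans (by norm_num)) xa xb xc
        rcases lt_trichotomy (det3 (ψ a a) (ψ a b) (ψ a c)) 0 with h0 | h0 | h0
        · right
          refine ⟨hac, hab, hbc.symm, ⟨x, ⟨xa, xc⟩, xb⟩, ?_⟩
          rw [det3_swap]
          linarith
        · rw [h0] at hfat; norm_num at hfat
        · left
          exact ⟨hab, hac, hbc, ⟨x, ⟨xa, xb⟩, xc⟩, h0⟩ }
  refine ⟨C, ε * (1 / 10 ^ 16), by positivity, fun x => ?_⟩
  obtain ⟨v, hv⟩ := lebesgue_cell h hw x
  refine ⟨v, fun y hy => hv y ?_⟩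
  rw [mem_ball, dist_comm] at hy
  rw [div_le_iff₀ hε]
  linarith

end Pool.Agent.Helper57.Cut
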