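import Mathlib
import Pool.Agent.Helper57.Cut.CoverFlat

/-!
# Existence of fine covers with surface nerve on compact subsets of oriented surfaces
-/

open Set Metric Filter Topology
open scoped ENNReal NNReal

namespace Pool.Agent.Helper57.Cut

open Pool.Agent.Helper21.Cut

/-- finite separated nets -/
lemma exists_net (K : Type*) [PseudoMetricSpace K] [CompactSpace K] {ε : ℝ} (hε : 0 < ε) :
    ∃ P : Finset K, (∀ x, ∃ p ∈ P, dist x p ≤ ε) ∧
      ∀ p ∈ P, ∀ p' ∈ P, p ≠ p' → ε ≤ dist p p' := by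
  set e : ℝ≥0 := ε.toNNReal with he
  have he0 : (e : ℝ) = ε := Real.coe_toNNReal _ hε.le
  have htop : packingNumber e (univ : Set K) ≠ ⊤ := by
    have h2 : (2 : ℝ≥0) * (e / 2) = e := by
      rw [mul_div_cancel₀]; norm_num
    rw [← h2]
    have hpos : (0 : ℝ≥0) < e / 2 := by
      have : 0 < e := by rw [he]; exact Real.toNNReal_pos.2 hε
      positivity
    obtain ⟨N, -, hfin, hN⟩ := exists_finite_isCover_of_isCompact (ε := e / 2) (s := (univ : Set K))
      hpos.ne' isCompact_univ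
    have h3 := (packingNumber_two_mul_le_externalCoveringNumber (e / 2) (univ : Set K)).trans
      (hN.externalCoveringNumber_le_encard)
    exact (h3.trans_lt hfin.encard_lt_top).ne
  have hfin : (maximalSeparatedSet e (univ : Set K)).Finite := by
    rw [← Set.encard_lt_top_iff, encard_maximalSeparatedSet htop]
    exact lt_top_iff_ne_top.2 htop
  refine ⟨hfin.toFinset, fun x => ?_, fun p hp p' hp' hne => ?_⟩
  · obtain ⟨p, hp, hxp⟩ := isCover_maximalSeparatedSet htop (mem_univ x)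
    refine ⟨p, by simpa using hp, ?_⟩
    have : edist x p ≤ (e : ℝ≥0∞) := hxp
    rw [edist_nndist, ENNReal.coe_le_coe] at this
    rw [← he0]
    exact_mod_cast this
  · have := isSeparated_maximalSeparatedSet (ε := e) (A := (univ : Set K)) (by simpa using hp)
      (by simpa using hp') hne
    dsimp only at this
    rw [edist_nndist, ENNReal.coe_lt_coe] at this
    rw [← he0]
    exact_mod_cast this.le

section

variable {M : Type*} [MetricSpace M]

/-- coherent orientation at a uniform scale on compact subsets -/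
lemma orient_uniform {Φ : M → M → ℂ} {r : M → ℝ} {c : ℝ} (x x' : M)
    (hor : ∀ q, q ∈ ball x (r x) → q ∈ ball x' (r x') → ∃ s : ℝ, 0 < s ∧
      ∀ u ∈ ball q s, ∀ v ∈ ball q s, ∀ w ∈ ball q s,
        c * (dist (Φ x u) (Φ x v) * dist (Φ x u) (Φ x w)) ≤ det3 (Φ x u) (Φ x v) (Φ x w) →
        0 < det3 (Φ x u) (Φ x v) (Φ x w) → 0 < det3 (Φ x' u) (Φ x' v) (Φ x' w))
    {Q : Set M} (hQ : IsCompact Q) (hQ1 : Q ⊆ ball x (r x)) (hQ2 : Q ⊆ ball x' (r x')) :
    ∃ s : ℝ, 0 < s ∧ ∀ u ∈ Q, ∀ v ∈ ball u s, ∀ w ∈ ball u s,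
        c * (dist (Φ x u) (Φ x v) * dist (Φ x u) (Φ x w)) ≤ det3 (Φ x u) (Φ x v) (Φ x w) →
        0 < det3 (Φ x u) (Φ x v) (Φ x w) → 0 < det3 (Φ x' u) (Φ x' v) (Φ x' w) := by
  choose! s hs0 hs using hor
  obtain ⟨δ, hδ, hδ2⟩ := lebesgue_number_lemma_of_metric (c := fun i : Q => ball (i : M) (s i)) hQ
    (fun i => isOpen_ball) (fun y hy => mem_iUnion.2 ⟨⟨y, hy⟩, mem_ball_self
      (hs0 y (hQ1 hy) (hQ2 hy))⟩)
  refine ⟨δ, hδ, fun u hu v hv w hw h1 h2 => ?_⟩
  obtain ⟨i, hi⟩ := hδ2 u hu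
  exact hs i (hQ1 i.2) (hQ2 i.2) u (hi (mem_ball_self hδ)) v (hi hv) w (hi hw) h1 h2

lemma det3_div (a b c : ℂ) (ε : ℝ) :
    det3 (a / ε) (b / ε) (c / ε) = det3 a b c / ε ^ 2 := by
  unfold det3
  simp only [Complex.div_ofReal_re, Complex.div_ofReal_im]
  by_cases h : ε = 0
  · simp [h]
  · field_simp

lemma q_div (a b : ℂ) {ε : ℝ} (hε : 0 < ε) : q (a / ε) (b / ε) = (dist a b / ε) ^ 2 := by
  rw [div_pow, ← q_eq_dist]
  unfold q
  simp only [Complex.div_ofReal_re, Complex.div_ofReal_im]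
  field_simp

/-- flat data on compact subsets of surfaces, at arbitrarily small scales -/
theorem exists_flat (hM : Surface M) {K : Set M} (hK : IsCompact K) {δ : ℝ} (hδ : 0 < δ) :
    ∃ ε : ℝ, 0 < ε ∧ 3 * ε ≤ δ ∧ ∃ (ψ : K → K → ℂ) (P : Finset K),
      Flat (fun x y : K => dist x y / ε) ψ P := by
  classical
  obtain ⟨Φ, r, hr, hbi, -, hor⟩ := hM.chart (1 + 1 / 10 ^ 18) (by norm_num)
  -- finitely many charts
  obtain ⟨F, hFK, hF⟩ := hK.elim_nhds_subcover (fun x => ball x (r x / 2))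
    (fun x _ => ball_mem_nhds x (half_pos (hr x)))
  have hj : ∀ v : K, ∃ c ∈ F, (v : M) ∈ ball c (r c / 2) := by
    intro v
    have := hF v.2
    simpa using this
  choose j hjF hj using hj
  -- conditions on the scale
  have c1 : ∀ᶠ ε in 𝓝[>] (0 : ℝ), 3 * ε ≤ δ := by
    have : Tendsto (fun ε : ℝ => 3 * ε) (𝓝[>] 0) (𝓝 (3 * 0)) :=
      (continuous_const.mul continuous_id).continuousAt.tendsto.mono_left nhdsWithin_le_nhds
    rw [mul_zero] at this
    filter_upwards [this.eventually (gt_mem_nhds hδ)] with ε hε using hε.le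
  have c2 : ∀ c ∈ F, ∀ᶠ ε in 𝓝[>] (0 : ℝ), 4 * ε < r c / 4 := by
    intro c _
    have : Tendsto (fun ε : ℝ => 4 * ε) (𝓝[>] 0) (𝓝 (4 * 0)) :=
      (continuous_const.mul continuous_id).continuousAt.tendsto.mono_left nhdsWithin_le_nhds
    rw [mul_zero] at this
    have hp : 0 < r c / 4 := by have := hr c; positivity
    exact this.eventually (gt_mem_nhds hp)
  have c3 : ∀ c ∈ F, ∀ c' ∈ F, ∀ᶠ ε in 𝓝[>] (0 : ℝ),
      ∀ u ∈ K ∩ closedBall c (3 / 4 * r c) ∩ closedBall c' (3 / 4 * r c'),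
        ∀ v ∈ ball u (9 * ε), ∀ w ∈ ball u (9 * ε),
        1 / 1000 * (dist (Φ c u) (Φ c v) * dist (Φ c u) (Φ c w)) ≤ det3 (Φ c u) (Φ c v) (Φ c w) →
        0 < det3 (Φ c u) (Φ c v) (Φ c w) → 0 < det3 (Φ c' u) (Φ c' v) (Φ c' w) := by
    intro c _ c' _
    have hQ : IsCompact (K ∩ closedBall c (3 / 4 * r c) ∩ closedBall c' (3 / 4 * r c')) :=
      (hK.inter_right isClosed_closedBall).inter_right isClosed_closedBall
    obtain ⟨s, hs, hs2⟩ := orient_uniform (Φ := Φ) (r := r) (c := 1 / 1000) c c'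
      (fun q h1 h2 => hor c c' q h1 h2 _ (by norm_num)) hQ
      (fun y hy => closedBall_subset_ball (by have := hr c; linarith) hy.1.2)
      (fun y hy => closedBall_subset_ball (by have := hr c'; linarith) hy.2)
    have : Tendsto (fun ε : ℝ => 9 * ε) (𝓝[>] 0) (𝓝 (9 * 0)) :=
      (continuous_const.mul continuous_id).continuousAt.tendsto.mono_left nhdsWithin_le_nhds
    rw [mul_zero] at this
    filter_upwards [this.eventually (gt_mem_nhds hs)] with ε hε u hu v hv w hw h1 h2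
    exact hs2 u hu v (ball_subset_ball hε.le hv) w (ball_subset_ball hε.le hw) h1 h2
  have c2' := (Filter.eventually_all_finset F).2 c2
  have c3' := (Filter.eventually_all_finset F).2
    (fun c hc => (Filter.eventually_all_finset F).2 (c3 c hc))
  obtain ⟨ε, ⟨⟨h1, h2⟩, h3⟩, hε⟩ := (((c1.and c2').and c3').and self_mem_nhdsWithin).exists
  have : CompactSpace K := isCompact_iff_compactSpace.1 hK
  obtain ⟨P, hP1, hP2⟩ := exists_net K hε
  -- points near `v` are in the domain of the chart of `v`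
  have dom : ∀ v x : K, dist v x / ε ≤ 4 → (x : M) ∈ closedBall (j v) (3 / 4 * r (j v)) := by
    intro v x hvx
    rw [div_le_iff₀ hε] at hvx
    have e1 := hj v
    rw [mem_ball] at e1
    rw [mem_closedBall]
    have e2 := dist_triangle (x : M) (v : M) (j v)
    have e3 : dist (x : M) (v : M) ≤ 4 * ε := by rw [dist_comm]; exact hvx
    have e4 := h2 (j v) (hjF v)
    linarith
  have dom' : ∀ v x : K, dist v x / ε ≤ 4 → (x : M) ∈ ball (j v) (r (j v)) := fun v x hvx =>
    closedBall_subset_ball (by have := hr (j v); linarith) (dom v x hvx)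
  refine ⟨ε, hε, h1, fun v x => Φ (j v) x / ε, P, ?_⟩
  constructor
  · intro x y; rw [dist_comm]
  · intro x y; positivity
  · intro x; simp
  · intro x y z
    rw [← add_div]
    gcongr
    exact dist_triangle _ _ _
  · intro x
    obtain ⟨p, hp, hxp⟩ := hP1 x
    exact ⟨p, hp, by rw [div_le_iff₀ hε]; linarith⟩
  · intro p hp p' hp' hne
    rw [le_div_iff₀ hε]
    have := hP2 p hp p' hp' hne
    linarith
  · intro v x y hvx hvy
    rw [q_div _ _ hε]
    obtain ⟨b1, b2⟩ := hbi (j v) x (dom' v x hvx) y (dom' v y hvy)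
    have hxy : dist x y / ε ≤ 8 := by
      have := dist_triangle x v y
      rw [dist_comm x v] at this
      calc dist x y / ε ≤ (dist v x + dist v y) / ε := by gcongr
        _ = dist v x / ε + dist v y / ε := add_div _ _ _
        _ ≤ 8 := by linarith
    have hD : 0 ≤ dist x y / ε := by positivity
    have hE : 0 ≤ dist (Φ (j v) x) (Φ (j v) y) / ε := by positivity
    have b1' : dist (Φ (j v) x) (Φ (j v) y) / ε ≤ (1 + 1 / 10 ^ 18) * (dist x y / ε) := by
      rw [← mul_div_assoc]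
      gcongr
      exact b1
    have b2' : dist x y / ε ≤ (1 + 1 / 10 ^ 18) * (dist (Φ (j v) x) (Φ (j v) y) / ε) := by
      rw [← mul_div_assoc]
      gcongr
      exact b2
    set D := dist x y / ε
    set E := dist (Φ (j v) x) (Φ (j v) y) / ε
    have hE8 : E ≤ 9 := by
      refine b1'.trans ?_
      calc (1 + 1 / 10 ^ 18) * D ≤ (1 + 1 / 10 ^ 18) * 8 := by gcongr
        _ ≤ 9 := by norm_num
    have f1 : E - D ≤ 8 / 10 ^ 18 := by linarith
    have f2 : D - E ≤ 9 / 10 ^ 18 := by linarith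
    have f3 : E ^ 2 - D ^ 2 = (E - D) * (E + D) := by ring
    rw [f3, abs_mul]
    have f4 : |E - D| ≤ 9 / 10 ^ 18 := by rw [abs_le]; constructor <;> linarith
    have f5 : |E + D| ≤ 17 := by rw [abs_le]; constructor <;> linarith
    calc |E - D| * |E + D| ≤ 9 / 10 ^ 18 * 17 := mul_le_mul f4 f5 (abs_nonneg _) (by norm_num)
      _ ≤ 1 / 10 ^ 15 := by norm_num
  · intro v v' a b c hva hvb hvc hva' hvb' hvc' hdet
    rw [det3_div] at hdet ⊢
    have hε2 : 0 < ε ^ 2 := by positivity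
    rw [le_div_iff₀ hε2] at hdet
    apply div_pos _ hε2
    have e1 : 0 < det3 (Φ (j v) a) (Φ (j v) b) (Φ (j v) c) := by
      have : 0 < 4 / 10 * ε ^ 2 := by positivity
      linarith
    have nb : ∀ y : K, dist v y / ε ≤ 4 → dist (a : M) y ≤ 8 * ε := by
      intro y hy
      rw [div_le_iff₀ hε] at hy hva
      have e := dist_triangle (a : M) v y
      have e' : dist (a : M) v ≤ 4 * ε := by rw [dist_comm]; exact hva
      have e'' : dist (v : M) y ≤ 4 * ε := hy
      linarith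
    have nbb := nb b hvb
    have nbc := nb c hvc
    refine h3 (j v) (hjF v) (j v') (hjF v') a ⟨⟨a.2, dom v a hva⟩, dom v' a hva'⟩ b ?_ c ?_ ?_ e1
    · rw [mem_ball, dist_comm]; linarith
    · rw [mem_ball, dist_comm]; linarith
    · obtain ⟨b1, -⟩ := hbi (j v) a (dom' v a hva) b (dom' v b hvb)
      obtain ⟨b2, -⟩ := hbi (j v) a (dom' v a hva) c (dom' v c hvc)
      have g1 : dist (Φ (j v) a) (Φ (j v) b) ≤ 9 * ε := by
        refine b1.trans ?_
        calc (1 + 1 / 10 ^ 18) * dist (a : M) b ≤ (1 + 1 / 10 ^ 18) * (8 * ε) := by gcongr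
          _ ≤ 9 * ε := by norm_num; linarith
      have g2 : dist (Φ (j v) a) (Φ (j v) c) ≤ 9 * ε := by
        refine b2.trans ?_
        calc (1 + 1 / 10 ^ 18) * dist (a : M) c ≤ (1 + 1 / 10 ^ 18) * (8 * ε) := by gcongr
          _ ≤ 9 * ε := by norm_num; linarith
      have g3 : dist (Φ (j v) a) (Φ (j v) b) * dist (Φ (j v) a) (Φ (j v) c) ≤ (9 * ε) * (9 * ε) :=
        mul_le_mul g1 g2 dist_nonneg (by positivity)
      refine le_trans ?_ hdet
      nlinarith

/-- fine covers with surface nerve on compact subsets of oriented surfaces -/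
theorem exists_cover (hM : Surface M) {K : Set M} (hK : IsCompact K) {δ : ℝ} (hδ : 0 < δ) :
    ∃ (C : Cover K K δ) (r : ℝ), 0 < r ∧ ∀ x, ∃ v, ball x r ⊆ C.U v := by
  obtain ⟨ε, hε, hεδ, ψ, P, h⟩ := exists_flat hM hK hδ
  exact cover_of_flat hε hεδ h

end

end Pool.Agent.Helper57.Cut
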