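import Mathlib
import Pool.Agent.Helper57.Cut.Geo

/-!
# Riemannian manifolds are length spaces
-/

open Set Metric Bundle MeasureTheory Manifold
open scoped ENNReal NNReal Topology Manifold ContDiff Bundle

namespace Pool.Agent.Helper57.Cut

variable {E : Type*} [NormedAddCommGroup E] [NormedSpace ℝ E]
  {H : Type*} [TopologicalSpace H] {I' : ModelWithCorners ℝ E H}
  {M : Type*} [EMetricSpace M] [ChartedSpace H M]
  [RiemannianBundle (fun (x : M) ↦ TangentSpace I' x)]
  [IsRiemannianManifold I' M]

/-- the variation of a `C^1` path is at most its Riemannian length -/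
lemma eVariationOn_le_pathELength {γ : ℝ → M} {a b : ℝ}
    (hγ : ContMDiffOn 𝓘(ℝ) I' 1 γ (Icc a b)) :
    eVariationOn γ (Icc a b) ≤ pathELength I' γ a b := by
  unfold eVariationOn
  apply iSup_le
  rintro ⟨n, u, hu, hus⟩
  simp only
  have key : ∀ m : ℕ, ∑ i ∈ Finset.range m, edist (γ (u (i + 1))) (γ (u i)) ≤
      pathELength I' γ (u 0) (u m) := by
    intro m
    induction m with
    | zero => simp
    | succ m ih =>
      rw [Finset.sum_range_succ]
      have h1 : edist (γ (u (m + 1))) (γ (u m)) ≤ pathELength I' γ (u m) (u (m + 1)) := by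
        rw [edist_comm, IsRiemannianManifold.out (I := I')]
        exact riemannianEDist_le_pathELength (hγ.mono (Icc_subset_Icc (hus m).1 (hus (m + 1)).2))
          rfl rfl (hu (Nat.le_succ m))
      calc _ ≤ pathELength I' γ (u 0) (u m) + pathELength I' γ (u m) (u (m + 1)) := by gcongr
        _ = _ := pathELength_add (hu (Nat.zero_le m)) (hu (Nat.le_succ m))
  exact (key n).trans (pathELength_mono (hus 0).1 (hus n).2)

/-- existence of short paths -/
lemma exists_short_path {E : Type*} [NormedAddCommGroup E] [NormedSpace ℝ E]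
    {H : Type*} [TopologicalSpace H] (I' : ModelWithCorners ℝ E H)
    {M : Type*} [EMetricSpace M] [ChartedSpace H M]
    [RiemannianBundle (fun (x : M) ↦ TangentSpace I' x)]
    [IsRiemannianManifold I' M] (x y : M) (L : ℝ≥0∞) (h : edist x y < L) : ∃ p : Path x y, len p < L := by
  rw [IsRiemannianManifold.out (I := I')] at h
  obtain ⟨γ, h0, h1, hγ, hL⟩ := exists_lt_of_riemannianEDist_lt h
  have hc : Continuous (fun t : unitInterval => γ t) :=
    continuousOn_iff_continuous_restrict.1 hγ.continuousOn
  refine ⟨⟨⟨fun t => γ t, hc⟩, by simpa using h0, by simpa using h1⟩, ?_⟩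
  refine lt_of_le_of_lt ?_ hL
  refine le_trans ?_ (eVariationOn_le_pathELength hγ)
  have : (fun t : unitInterval => γ t) = γ ∘ (Subtype.val : unitInterval → ℝ) := rfl
  change eVariationOn (fun t : unitInterval => γ t) univ ≤ _
  rw [this]
  exact eVariationOn.comp_le_of_monotoneOn γ _ (fun a _ b _ hab => hab) (fun t _ => t.2)

end Pool.Agent.Helper57.Cut
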