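import Mathlib
import Pool.Agent.Helper57.Cut.ExistsCover
import Pool.Agent.Helper57.Cut.Component

/-!
# Sampling of closed curves and of homotopies; the prime case
-/

open Set Metric
open scoped ENNReal NNReal unitInterval Topology

namespace Pool.Agent.Helper57.Cut

open Pool.Agent.Helper21.Cut

universe u

/-- the discrete theorem (statement; proved by helper21) -/
def DiscreteStmt : Prop :=
  ∀ (X : Type u) [PseudoMetricSpace X] (δ : ℝ), 0 < δ → ∀ (C : Cover X X δ) (p n T : ℕ), p.Prime →
    0 < n → ∀ (z : ℕ → ℕ → X), (∀ t i, z t (i + p * n) = z t i) → (∀ i, z 0 (i + n) = z 0 i) →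
    (∀ i, z T i = z T 0) →
    (∀ t < T, ∀ i, ∃ v, z t i ∈ C.U v ∧ z t (i+1) ∈ C.U v ∧ z t (i+2) ∈ C.U v ∧
      z (t+1) i ∈ C.U v ∧ z (t+1) (i+1) ∈ C.U v ∧ z (t+1) (i+2) ∈ C.U v) →
    ∀ (L ρ : ℝ), 40 * δ ≤ ρ →
    (∀ t < T, ∀ j, plen ((List.range (p*n)).map fun i => if i < j then z (t+1) i else z t i) ≤ L) →
    ∃ l, Conn δ (L - ρ + 40 * δ) ((List.range n).map (z 0)) l ∧ plen l < ρ

section lists

variable {X : Type*} [PseudoMetricSpace X]

lemma walkLen_map (k : ℕ) : ∀ (z : ℕ → X) (b : X),
    walkLen (z 0) ((List.range k).map (fun i => z (i + 1))) b =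
      ∑ i ∈ Finset.range k, dist (z i) (z (i + 1)) + dist (z k) b := by
  induction k with
  | zero => intro z b; simp [walkLen]
  | succ k ih =>
    intro z b
    rw [List.range_succ_eq_map, List.map_cons, List.map_map, walkLen, Finset.sum_range_succ']
    have := ih (fun i => z (i + 1)) b
    simp only [Function.comp_def, Nat.succ_eq_add_one] at this ⊢
    rw [zero_add, this]
    ring

lemma plen_range (z : ℕ → X) (k : ℕ) :
    plen ((List.range (k + 1)).map z) =
      ∑ i ∈ Finset.range k, dist (z i) (z (i + 1)) + dist (z k) (z 0) := by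
  rw [List.range_succ_eq_map, List.map_cons, List.map_map, plen]
  exact walkLen_map k z (z 0)

lemma plen_range' (z : ℕ → X) {N : ℕ} (hN : 0 < N) :
    plen ((List.range N).map z) =
      ∑ i ∈ Finset.range N, dist (z i) (if i + 1 = N then z 0 else z (i + 1)) := by
  obtain ⟨k, rfl⟩ : ∃ k, N = k + 1 := ⟨N - 1, by omega⟩
  rw [plen_range, Finset.sum_range_succ]
  congr 1
  · apply Finset.sum_congr rfl
    intro i hi
    rw [Finset.mem_range] at hi
    rw [if_neg (by omega)]
  · simp

end lists

section circle

lemma dist_coe_le (a b : ℝ) : dist (a : AddCircle (1 : ℝ)) (b : AddCircle (1 : ℝ)) ≤ |a - b| := by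
  rw [dist_eq_norm, ← AddCircle.coe_sub]
  exact QuotientAddGroup.norm_mk_le_norm

variable {M : Type*} [MetricSpace M]

/-- polygonal lengths of samples are bounded by the length -/
lemma sum_edist_le_loopLength (c : AddCircle (1 : ℝ) → M) {N : ℕ} (hN : 0 < N) :
    ∑ i ∈ Finset.range N, edist (c ((i / N : ℝ) : AddCircle (1 : ℝ)))
      (c (((i + 1 : ℕ) / N : ℝ) : AddCircle (1 : ℝ))) ≤ loopLength c := by
  have hN' : (0 : ℝ) < N := by exact_mod_cast hN
  have := eVariationOn.sum_le_of_monotoneOn_Icc (f := fun t : ℝ => c (t : AddCircle (1 : ℝ)))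
    (s := Icc 0 1) (m := 0) (n := N) (u := fun i => (i / N : ℝ)) (by
      intro a _ b _ hab
      dsimp only
      gcongr) (by
      intro i hi
      constructor
      · positivity
      · rw [div_le_one hN']
        exact_mod_cast hi.2)
  rw [loopLength]
  refine le_trans (le_of_eq ?_) this
  rw [Nat.Ico_zero_eq_range]
  apply Finset.sum_congr rfl
  intro i _
  rw [edist_comm]

/-- the length of the double (or longer multiple) of a curve -/
lemma two_mul_loopLength_le {M : Type*} [PseudoEMetricSpace M] (c : C(AddCircle (1 : ℝ), M))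
    {p : ℕ} (hp : 2 ≤ p) :
    2 * loopLength c ≤ loopLength (multiple p c) := by
  have hp' : (2 : ℝ) ≤ p := by exact_mod_cast hp
  have hp0 : (0 : ℝ) < p := by linarith
  set f : ℝ → M := fun t => c (t : AddCircle (1 : ℝ)) with hf
  set g : ℝ → M := fun t => multiple p c (t : AddCircle (1 : ℝ)) with hg
  have hgf : ∀ t, g t = f (p * t) := by
    intro t
    simp only [hg, hf, multiple, ContinuousMap.coe_mk]
    congr 1
    rw [← AddCircle.coe_nsmul, nsmul_eq_mul]
  have hper : ∀ t, f (t + 1) = f t := by
    intro t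
    simp only [hf]
    congr 1
    exact AddCircle.coe_add_period 1 t
  have h1 : eVariationOn g (Icc 0 (1 / p)) = eVariationOn f (Icc 0 1) := by
    have : EqOn g (f ∘ fun t => p * t) (Icc 0 (1 / p)) := fun t _ => hgf t
    rw [eVariationOn.congr this, eVariationOn.comp_eq_of_monotoneOn]
    · congr 1
      ext y
      simp only [mem_image, mem_Icc]
      constructor
      · rintro ⟨t, ⟨h1, h2⟩, rfl⟩
        rw [le_div_iff₀ hp0] at h2
        exact ⟨by positivity, by linarith⟩
      · rintro ⟨h1, h2⟩
        refine ⟨y / p, ⟨by positivity, by gcongr⟩, by field_simp⟩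
    · intro a _ b _ hab
      dsimp only
      gcongr
  have h2 : eVariationOn g (Icc (1 / p) (2 / p)) = eVariationOn f (Icc 0 1) := by
    have : EqOn g (f ∘ fun t => p * t - 1) (Icc (1 / p) (2 / p)) := by
      intro t _
      simp only [Function.comp_apply]
      rw [hgf, ← hper (p * t - 1)]
      congr 1
      ring
    rw [eVariationOn.congr this, eVariationOn.comp_eq_of_monotoneOn]
    · congr 1
      ext y
      simp only [mem_image, mem_Icc]
      constructor
      · rintro ⟨t, ⟨h1, h2⟩, rfl⟩
        rw [div_le_iff₀ hp0] at h1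
        rw [le_div_iff₀ hp0] at h2
        exact ⟨by linarith, by linarith⟩
      · rintro ⟨h1, h2⟩
        refine ⟨(y + 1) / p, ⟨?_, ?_⟩, ?_⟩
        · gcongr; linarith
        · gcongr; linarith
        · field_simp; ring
    · intro a _ b _ hab
      dsimp only
      gcongr
  have hp1 : (1 : ℝ) / p ≤ 1 := by rw [div_le_one hp0]; linarith
  have hp2 : (2 : ℝ) / p ≤ 1 := by rw [div_le_one hp0]; linarith
  have h3 := eVariationOn.Icc_add_Icc g (s := univ) (a := 0) (b := 1 / (p : ℝ)) (c := 2 / p)
    (by positivity) (by gcongr; norm_num) (mem_univ _)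
  simp only [univ_inter] at h3
  calc 2 * loopLength c = eVariationOn f (Icc 0 1) + eVariationOn f (Icc 0 1) := by
        rw [two_mul]; rfl
    _ = eVariationOn g (Icc 0 (2 / p)) := by rw [← h3, h1, h2]
    _ ≤ eVariationOn g (Icc 0 1) := eVariationOn.mono g (Icc_subset_Icc le_rfl hp2)
    _ = loopLength (multiple p c) := rfl

end circle

/-- the prime case in a metric surface -/
theorem prime_case (hD : DiscreteStmt.{u}) (hR : RealiseStmt.{u}) (hT : TameStmt.{u})
    {M : Type u} [MetricSpace M] (hM : Surface M) (γ : C(AddCircle (1 : ℝ), M)) {p : ℕ}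
    (hp : p.Prime) (L : ℝ) (h : ContractsBelow L (multiple p γ)) : ContractsBelow L γ := by
  obtain ⟨H, h0, ⟨x0, h1⟩, h2⟩ := h
  have hL : 0 < L := by
    have : 0 < ENNReal.ofReal L := lt_of_le_of_lt bot_le (h2 0)
    exact ENNReal.ofReal_pos.1 this
  set K : Set M := range H with hKdef
  have hK : IsCompact K := isCompact_range H.continuous
  obtain ⟨R, hR0, hTame⟩ := hT M hM K hK
  set δ : ℝ := min (R / 240) (L / 240) with hδdef
  have hδ : 0 < δ := by positivity
  have hδR : 240 * δ ≤ R := by
    have : δ ≤ R / 240 := min_le_left _ _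
    linarith
  have hδL : 240 * δ ≤ L := by
    have : δ ≤ L / 240 := min_le_right _ _
    linarith
  obtain ⟨C, r, hr, hcover⟩ := exists_cover hM hK hδ
  let F : C(I × AddCircle (1 : ℝ), K) := ⟨fun s => ⟨H s, mem_range_self s⟩,
    Continuous.subtype_mk H.continuous _⟩
  have hF : UniformContinuous F := CompactSpace.uniformContinuous_of_continuous F.continuous
  rw [Metric.uniformContinuous_iff] at hF
  obtain ⟨ω₁, hω₁, hF₁⟩ := hF (min r δ) (by positivity)
  have hp0 : 0 < p := hp.pos
  have hp0' : (0 : ℝ) < p := by exact_mod_cast hp0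
  have hp1' : (1 : ℝ) ≤ p := by exact_mod_cast hp.one_le
  -- number of samples
  obtain ⟨n, hn⟩ := exists_nat_gt (2 / ω₁)
  have hn' : (0 : ℝ) < n := lt_of_le_of_lt (by positivity) hn
  have hn0 : 0 < n := by exact_mod_cast hn'
  have hn2 : 2 / (n : ℝ) < ω₁ := by
    rw [div_lt_iff₀ hn']
    rw [div_lt_iff₀ hω₁] at hn
    linarith
  set N : ℕ := p * n with hN
  have hN0 : 0 < N := Nat.mul_pos hp0 hn0
  have hN' : (0 : ℝ) < N := by exact_mod_cast hN0
  have hNn : (n : ℝ) ≤ N := by
    rw [hN]; push_cast
    nlinarith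
  have hN2 : 2 / (N : ℝ) < ω₁ := lt_of_le_of_lt (by gcongr) hn2
  obtain ⟨ω₂, hω₂, hF₂⟩ := hF (δ / (2 * N)) (by positivity)
  obtain ⟨T, hT1⟩ := exists_nat_gt (1 / min ω₁ ω₂)
  have hω : 0 < min ω₁ ω₂ := by positivity
  have hT' : (0 : ℝ) < T := lt_of_le_of_lt (by positivity) hT1
  have hT2 : 1 / (T : ℝ) < min ω₁ ω₂ := by
    rw [div_lt_iff₀ hT']
    rw [div_lt_iff₀ hω] at hT1
    linarith
  let τ : ℕ → I := fun t => projIcc 0 1 zero_le_one ((t : ℝ) / T)
  have hτ : ∀ t, dist (τ t) (τ (t + 1)) < min ω₁ ω₂ := by
    intro t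
    refine lt_of_le_of_lt ?_ hT2
    have := (LipschitzWith.projIcc (a := (0 : ℝ)) (b := 1) zero_le_one).dist_le_mul ((t : ℝ) / T)
      (((t + 1 : ℕ) : ℝ) / T)
    refine this.trans ?_
    rw [Real.dist_eq]
    have : (t : ℝ) / T - ((t + 1 : ℕ) : ℝ) / T = -(1 / T) := by push_cast; field_simp; ring
    rw [this, abs_neg, abs_of_pos (by positivity)]
    simp
  let s : ℕ → AddCircle (1 : ℝ) := fun i => ((i / N : ℝ) : AddCircle (1 : ℝ))
  have hs : ∀ i j : ℕ, dist (s i) (s (i + j)) ≤ j / N := by
    intro i j
    refine (dist_coe_le _ _).trans ?_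
    have : (i : ℝ) / N - ((i + j : ℕ) : ℝ) / N = -(j / N) := by push_cast; field_simp; ring
    rw [this, abs_neg, abs_of_nonneg (by positivity)]
  have hper1 : ∀ i, s (i + N) = s i := by
    intro i
    simp only [s]
    have : (((i + N : ℕ) : ℝ) / N) = (i : ℝ) / N + 1 := by push_cast; field_simp
    rw [this]
    exact AddCircle.coe_add_period 1 _
  let z : ℕ → ℕ → K := fun t i => F (τ t, s i)
  have hτ0 : τ 0 = 0 := by
    simp only [τ]; rw [projIcc_eq_zero]; simp
  have hτT : τ T = 1 := by
    simp only [τ]; rw [projIcc_eq_one]; rw [div_self hT'.ne']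
  have hz0 : ∀ i : ℕ, (z 0 i : M) = γ ((i / n : ℝ) : AddCircle (1 : ℝ)) := by
    intro i
    simp only [z, F, ContinuousMap.coe_mk, hτ0, h0, multiple, s]
    congr 1
    rw [← AddCircle.coe_nsmul, nsmul_eq_mul]
    congr 1
    rw [hN]; push_cast; field_simp
  have hshort : loopLength γ ≤ ENNReal.ofReal (L / 2) := by
    have e1 := two_mul_loopLength_le γ hp.two_le
    have e2 : loopLength (multiple p γ) < ENNReal.ofReal L := by
      have := h2 0
      have e3 : (fun s => H (0, s)) = multiple p γ := by funext s; exact h0 s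
      rwa [e3] at this
    have e4 : 2 * loopLength γ < ENNReal.ofReal L := e1.trans_lt e2
    rw [ENNReal.ofReal_div_of_pos (by norm_num), ENNReal.le_div_iff_mul_le (Or.inl (by norm_num))
      (Or.inl (by norm_num))]
    rw [mul_comm]
    simpa using e4.le
  -- the discrete theorem
  obtain ⟨l, hl1, hl2⟩ := hD K δ hδ C p n T hp hn0 z
    (fun t i => by simp only [z]; rw [← hN, hper1])
    (fun i => by
      apply Subtype.ext
      rw [hz0, hz0]
      congr 1
      have : (((i + n : ℕ) : ℝ) / n) = (i : ℝ) / n + 1 := by push_cast; field_simp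
      rw [this]
      exact AddCircle.coe_add_period 1 _)
    (fun i => by
      apply Subtype.ext
      simp only [z, F, ContinuousMap.coe_mk, hτT, h1])
    (fun t _ i => by
      obtain ⟨v, hv⟩ := hcover (z t i)
      have near : ∀ (t' : ℕ) (j : ℕ), (t' = t ∨ t' = t + 1) → j ≤ 2 → z t' (i + j) ∈ C.U v := by
        intro t' j ht' hj
        apply hv
        rw [mem_ball, dist_comm]
        refine lt_of_lt_of_le (hF₁ ?_) (min_le_left _ _)
        rw [Prod.dist_eq]
        apply max_lt
        · rcases ht' with rfl | rfl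
          · simp [hω₁]
          · exact (hτ t).trans_le (min_le_left _ _)
        · refine lt_of_le_of_lt (hs i j) (lt_of_le_of_lt ?_ hN2)
          gcongr
          exact_mod_cast hj
      exact ⟨v, near t 0 (Or.inl rfl) (by norm_num), near t 1 (Or.inl rfl) (by norm_num),
        near t 2 (Or.inl rfl) (by norm_num), near (t + 1) 0 (Or.inr rfl) (by norm_num),
        near (t + 1) 1 (Or.inr rfl) (by norm_num), near (t + 1) 2 (Or.inr rfl) (by norm_num)⟩)
    (L + δ) (60 * δ) (by linarith)
    (fun t _ j => by
      rw [← hN, plen_range' _ hN0]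
      have hmix : ∀ i, dist (if i < j then z (t + 1) i else z t i) (z t i) ≤ δ / (2 * N) := by
        intro i
        split_ifs
        · rw [dist_comm]
          apply le_of_lt
          apply hF₂
          rw [Prod.dist_eq]
          apply max_lt
          · exact (hτ t).trans_le (min_le_right _ _)
          · simp [hω₂]
        · rw [dist_self]; positivity
      have hlen : ∑ i ∈ Finset.range N, dist (z t i) (z t (i + 1)) ≤ L := by
        have e1 := sum_edist_le_loopLength (fun s => H (τ t, s)) hN0
        have e2 := e1.trans_lt (h2 (τ t))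
        have e3 : ∑ i ∈ Finset.range N, edist (H (τ t, ((i / N : ℝ) : AddCircle (1 : ℝ))))
            (H (τ t, (((i + 1 : ℕ) / N : ℝ) : AddCircle (1 : ℝ)))) =
            ENNReal.ofReal (∑ i ∈ Finset.range N, dist (z t i) (z t (i + 1))) := by
          rw [ENNReal.ofReal_sum_of_nonneg (fun _ _ => dist_nonneg)]
          apply Finset.sum_congr rfl
          intro i _
          rw [edist_dist]
          rfl
        rw [e3] at e2
        exact ((ENNReal.ofReal_lt_ofReal_iff hL).1 e2).le
      calc ∑ i ∈ Finset.range N, dist (if i < j then z (t + 1) i else z t i)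
            (if i + 1 = N then (if 0 < j then z (t + 1) 0 else z t 0)
              else (if i + 1 < j then z (t + 1) (i + 1) else z t (i + 1)))
          ≤ ∑ i ∈ Finset.range N, (dist (z t i) (z t (i + 1)) + δ / N) := by
            apply Finset.sum_le_sum
            intro i _
            have a1 := hmix i
            have key : dist (if i + 1 = N then (if 0 < j then z (t + 1) 0 else z t 0)
              else (if i + 1 < j then z (t + 1) (i + 1) else z t (i + 1))) (z t (i + 1)) ≤
              δ / (2 * N) := by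
              by_cases hiN : i + 1 = N
              · rw [if_pos hiN]
                have e0 : z t (i + 1) = z t 0 := by
                  rw [hiN]
                  have : z t (0 + N) = z t 0 := by simp only [z]; rw [hper1]
                  rwa [zero_add] at this
                rw [e0]
                exact hmix 0
              · rw [if_neg hiN]
                exact hmix (i + 1)
            have tri := dist_triangle4 (if i < j then z (t + 1) i else z t i) (z t i) (z t (i + 1))
              (if i + 1 = N then (if 0 < j then z (t + 1) 0 else z t 0)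
              else (if i + 1 < j then z (t + 1) (i + 1) else z t (i + 1)))
            rw [dist_comm] at key
            have hsum : δ / (2 * N) + δ / (2 * N) = δ / N := by field_simp; ring
            linarith
        _ = (∑ i ∈ Finset.range N, dist (z t i) (z t (i + 1))) + δ := by
            rw [Finset.sum_add_distrib, Finset.sum_const, Finset.card_range, nsmul_eq_mul]
            congr 1
            field_simp
        _ ≤ L + δ := by linarith)
  -- realisation
  refine hR M K R L δ (60 * δ) (L + δ - 60 * δ + 40 * δ) hTame hδ (by linarith) (by linarith)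
    (by linarith) (by linarith) (by linarith) γ hshort n (z 0) hn0 (fun i _ => hz0 i) ?_ l hl1 hl2
  intro i _ t ht
  -- `γ t = H (0, t / p)`
  have e1 : γ (t : AddCircle (1 : ℝ)) = F (0, ((t / p : ℝ) : AddCircle (1 : ℝ))) := by
    simp only [F, ContinuousMap.coe_mk, h0, multiple]
    congr 1
    rw [← AddCircle.coe_nsmul, nsmul_eq_mul]
    congr 1
    field_simp
  rw [e1]
  have e2 : z 0 i = F (0, s i) := by simp only [z, hτ0]
  rw [e2]
  change dist (F (0, ((t / p : ℝ) : AddCircle (1 : ℝ)))) (F (0, s i)) ≤ δ
  apply le_of_lt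
  refine lt_of_lt_of_le (hF₁ ?_) (min_le_right _ _)
  rw [Prod.dist_eq]
  apply max_lt
  · simp [hω₁]
  · refine lt_of_le_of_lt (dist_coe_le _ _) (lt_of_le_of_lt ?_ hn2)
    have e3 : t / p - (i / N : ℝ) = (t - i / n) / p := by
      rw [hN]; push_cast; field_simp
    rw [e3, abs_div, abs_of_pos hp0']
    have e4 : |t - i / n| ≤ 1 / n := by
      rw [abs_le]
      have h3 := ht.1
      have h4 := ht.2
      have h5 : ((i : ℝ) + 1) / n = i / n + 1 / n := by rw [add_div]
      have h6 : (0 : ℝ) ≤ 1 / n := by positivity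
      constructor <;> linarith
    calc |t - i / n| / p ≤ |t - i / n| / 1 := by gcongr
      _ = |t - i / n| := div_one _
      _ ≤ 1 / n := e4
      _ ≤ 2 / n := by gcongr; norm_num

end Pool.Agent.Helper57.Cut
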