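import Mathlib
import Pool.Agent.Helper57.Cut.Sampling

/-!
# All multiples, in extended metric spaces
-/

open Set Metric
open scoped ENNReal NNReal unitInterval Topology

namespace Pool.Agent.Helper57.Cut

universe u

/-- the prime case in an `ESurface` -/
theorem prime_case' (hD : DiscreteStmt.{u}) (hR : RealiseStmt.{u}) (hT : TameStmt.{u})
    {M : Type u} [EMetricSpace M] (hM : ESurface M) (γ : C(AddCircle (1 : ℝ), M)) {p : ℕ}
    (hp : p.Prime) (L : ℝ) (h : ContractsBelow L (multiple p γ)) : ContractsBelow L γ := by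
  obtain ⟨H, h0, ⟨x, h1⟩, h2⟩ := h
  set x₀ : M := H (0, 0) with hx₀
  have hfin : ∀ t, edist x₀ (H t) < ⊤ := fun t =>
    Comp.mem_of_connected H (0, 0) (by rw [← hx₀, edist_self]; exact ENNReal.zero_lt_top) t
  have hγ0 : edist x₀ (γ 0) < ⊤ := by
    have : H (0, 0) = γ 0 := by rw [h0]; simp [multiple]
    rw [hx₀, this, edist_self]; exact ENNReal.zero_lt_top
  have hfinγ : ∀ t, edist x₀ (γ t) < ⊤ := fun t => Comp.mem_of_connected γ 0 hγ0 t
  have key : ContractsBelow L (Comp.lift γ hfinγ) := by
    refine prime_case hD hR hT (hM.comp x₀) _ hp L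
      ⟨Comp.lift H hfin, ?_, ⟨⟨x, ?_⟩, ?_⟩, ?_⟩
    · intro s
      apply Subtype.ext
      exact h0 s
    · rw [← h1 0]; exact hfin _
    · intro s
      apply Subtype.ext
      exact h1 s
    · intro t
      exact h2 t
  exact key.of_comp

lemma multiple_one {M : Type*} [PseudoEMetricSpace M] (γ : C(AddCircle (1 : ℝ), M)) :
    multiple 1 γ = γ := by
  ext s; simp [multiple]

lemma multiple_mul {M : Type*} [PseudoEMetricSpace M] (a b : ℕ) (γ : C(AddCircle (1 : ℝ), M)) :
    multiple (a * b) γ = multiple b (multiple a γ) := by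
  ext s
  simp only [multiple, ContinuousMap.coe_mk]
  rw [mul_smul]

/-- all multiples -/
theorem all_multiples (hD : DiscreteStmt.{u}) (hR : RealiseStmt.{u}) (hT : TameStmt.{u})
    {M : Type u} [EMetricSpace M] (hM : ESurface M) (L : ℝ) (m : ℕ) :
    ∀ (γ : C(AddCircle (1 : ℝ), M)), 1 ≤ m → ContractsBelow L (multiple m γ) →
      ContractsBelow L γ := by
  induction m using Nat.recOnMul with
  | zero => intro γ h0; omega
  | one => intro γ _ h; rwa [multiple_one] at h
  | prime p hp => intro γ _ h; exact prime_case' hD hR hT hM γ hp L h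
  | mul a b iha ihb =>
    intro γ hm h
    have ha : 1 ≤ a := by
      rcases Nat.eq_zero_or_pos a with rfl | h; · simp at hm
      exact h
    have hb : 1 ≤ b := by
      rcases Nat.eq_zero_or_pos b with rfl | h; · simp at hm
      exact h
    rw [multiple_mul] at h
    exact iha γ ha (ihb (multiple a γ) hb h)

open scoped Manifold ContDiff Bundle

/-- conditional form of the main theorem -/
theorem main_of (hD : DiscreteStmt.{u}) (hR : RealiseStmt.{u}) (hT : TameStmt.{u})
    (hC : ChartStmt.{u}) {M : Type u} [EMetricSpace M]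
    [ChartedSpace (EuclideanSpace ℝ (Fin 2)) M] [IsManifold (𝓡 2) ∞ M]
    [Bundle.RiemannianBundle (fun x : M => TangentSpace (𝓡 2) x)]
    [IsContinuousRiemannianBundle (EuclideanSpace ℝ (Fin 2)) (fun x : M => TangentSpace (𝓡 2) x)]
    [IsRiemannianManifold (𝓡 2) M] (hO : Orientable M) (γ : C(AddCircle (1 : ℝ), M)) (m : ℕ)
    (hm : 1 ≤ m) (L : ℝ) (h : ContractsBelow L (multiple m γ)) : ContractsBelow L γ :=
  all_multiples hD hR hT (hC M hO) L m γ hm h

end Pool.Agent.Helper57.Cut
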