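import Mathlib
import Pool.Agent.Helper57.Cut.Angle

/-!
# Coherence of orientation of charts with positive Jacobian
-/

open Set Metric Filter Asymptotics
open scoped ENNReal NNReal Topology

namespace Pool.Agent.Helper57.Cut

lemma det2_clm (T : ℂ →L[ℝ] ℂ) (a b : ℂ) : det2 (T a) (T b) = T.det * det2 a b := by
  have hdet : T.det = (T 1).re * (T Complex.I).im - (T 1).im * (T Complex.I).re := by
    rw [ContinuousLinearMap.det, ← LinearMap.det_toMatrix Complex.basisOneI, Matrix.det_fin_two]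
    simp only [LinearMap.toMatrix_apply, Complex.coe_basisOneI_repr, Complex.coe_basisOneI]
    simp
    ring
  have lin : ∀ x : ℂ, T x = x.re • T 1 + x.im • T Complex.I := by
    intro x
    rw [← map_smul, ← map_smul, ← map_add]
    congr 1
    apply Complex.ext <;> simp
  rw [hdet, lin a, lin b]
  unfold det2
  simp only [Complex.add_re, Complex.add_im, Complex.real_smul, Complex.mul_re, Complex.mul_im,
    Complex.ofReal_re, Complex.ofReal_im]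
  ring

lemma abs_det2_le (a b : ℂ) : |det2 a b| ≤ ‖a‖ * ‖b‖ := by
  apply abs_le_of_sq_le (by positivity)
  rw [mul_pow, Complex.sq_norm, Complex.sq_norm, Complex.normSq_apply, Complex.normSq_apply]
  unfold det2
  nlinarith [sq_nonneg (a.re * b.re + a.im * b.im)]

lemma det2_perturb (T : ℂ →L[ℝ] ℂ) (hT : 0 < T.det) {c : ℝ} (hc : 0 < c) :
    ∃ ε > 0, ∀ a b r r' : ℂ, ‖r‖ ≤ ε * ‖a‖ → ‖r'‖ ≤ ε * ‖b‖ → c * (‖a‖ * ‖b‖) ≤ det2 a b →
      0 < det2 a b → 0 < det2 (T a + r) (T b + r') := by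
  set ε : ℝ := min 1 (T.det * c / (2 * (2 * ‖T‖ + 1))) with hε
  have hε0 : 0 < ε := by positivity
  have hε1 : ε ≤ 1 := min_le_left _ _
  have hε2 : ε * (2 * ‖T‖ + 1) ≤ T.det * c / 2 := by
    have h1 : ε ≤ T.det * c / (2 * (2 * ‖T‖ + 1)) := min_le_right _ _
    have h2 : (0 : ℝ) < 2 * ‖T‖ + 1 := by positivity
    calc ε * (2 * ‖T‖ + 1) ≤ T.det * c / (2 * (2 * ‖T‖ + 1)) * (2 * ‖T‖ + 1) := by gcongr
      _ = T.det * c / 2 := by field_simp
  refine ⟨ε, hε0, fun a b r r' hr hr' h1 h2 => ?_⟩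
  have e : det2 (T a + r) (T b + r') = det2 (T a) (T b) + det2 (T a) r' + det2 r (T b) +
      det2 r r' := by
    unfold det2
    simp only [Complex.add_re, Complex.add_im]
    ring
  rw [e, det2_clm]
  have hTa : ‖T a‖ ≤ ‖T‖ * ‖a‖ := T.le_opNorm a
  have hTb : ‖T b‖ ≤ ‖T‖ * ‖b‖ := T.le_opNorm b
  have b1 : |det2 (T a) r'| ≤ (‖T‖ * ‖a‖) * (ε * ‖b‖) :=
    (abs_det2_le _ _).trans (mul_le_mul hTa hr' (norm_nonneg _) (by positivity))
  have b2 : |det2 r (T b)| ≤ (ε * ‖a‖) * (‖T‖ * ‖b‖) :=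
    (abs_det2_le _ _).trans (mul_le_mul hr hTb (norm_nonneg _) (by positivity))
  have b3 : |det2 r r'| ≤ (ε * ‖a‖) * (1 * ‖b‖) :=
    (abs_det2_le _ _).trans (mul_le_mul hr (hr'.trans (by gcongr)) (norm_nonneg _) (by positivity))
  have c1 := (abs_le.1 b1).1
  have c2 := (abs_le.1 b2).1
  have c3 := (abs_le.1 b3).1
  have hab : 0 ≤ ‖a‖ * ‖b‖ := by positivity
  have k1 : ε * (2 * ‖T‖ + 1) * (‖a‖ * ‖b‖) ≤ T.det * c / 2 * (‖a‖ * ‖b‖) := by gcongr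
  have k2 : T.det / 2 * (c * (‖a‖ * ‖b‖)) ≤ T.det / 2 * det2 a b := by gcongr
  have k3 : 0 < T.det / 2 * det2 a b := by positivity
  nlinarith

variable {M : Type*} [EMetricSpace M]

lemma orient_near {φ φ' : M → ℂ} {x : M} (T : ℂ →L[ℝ] ℂ) (hT : 0 < T.det)
    (h : (fun uv : M × M => (φ' uv.1 - φ' uv.2) - T (φ uv.1 - φ uv.2)) =o[𝓝 (x, x)]
      (fun uv : M × M => φ uv.1 - φ uv.2)) {c : ℝ} (hc : 0 < c) :
    ∃ s : ℝ≥0, 0 < s ∧ ∀ u ∈ eball x s, ∀ v ∈ eball x s, ∀ w ∈ eball x s,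
        c * (dist (φ u) (φ v) * dist (φ u) (φ w)) ≤ det3 (φ u) (φ v) (φ w) →
        0 < det3 (φ u) (φ v) (φ w) → 0 < det3 (φ' u) (φ' v) (φ' w) := by
  obtain ⟨ε, hε, hmain⟩ := det2_perturb T hT hc
  have h1 := h.def hε
  obtain ⟨U, hUo, hxU, hU1⟩ := exists_nhds_square h1
  have hU : U ∈ 𝓝 x := hUo.mem_nhds hxU
  have hU2 : ∀ a ∈ U, ∀ b ∈ U, ‖(φ' a - φ' b) - T (φ a - φ b)‖ ≤ ε * ‖φ a - φ b‖ :=
    fun a ha b hb => hU1 (mk_mem_prod ha hb)
  obtain ⟨s, hs, hsU⟩ := EMetric.mem_nhds_iff.1 hU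
  obtain ⟨s', hs', hss'⟩ : ∃ s' : ℝ≥0, 0 < s' ∧ (s' : ℝ≥0∞) ≤ s := by
    obtain ⟨t, ht0, hts⟩ := ENNReal.lt_iff_exists_nnreal_btwn.1 hs
    exact ⟨t, by exact_mod_cast ht0, hts.le⟩
  refine ⟨s', hs', fun u hu v hv w hw hc1 hpos => ?_⟩
  have hu' : u ∈ U := hsU (eball_subset_eball hss' hu)
  have hv' : v ∈ U := hsU (eball_subset_eball hss' hv)
  have hw' : w ∈ U := hsU (eball_subset_eball hss' hw)
  have r1 := hU2 v hv' u hu'
  have r2 := hU2 w hw' u hu'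
  rw [det3_eq_det2] at hc1 hpos ⊢
  have key := hmain (φ v - φ u) (φ w - φ u) _ _ r1 r2 (by
    rw [dist_comm (φ u), dist_comm (φ u), Complex.dist_eq, Complex.dist_eq] at hc1
    exact hc1) hpos
  simpa using key

lemma littleO_of_strict {E : Type*} [NormedAddCommGroup E] [NormedSpace ℝ E] {g g' : E → ℂ} {y : E}
    (A : E ≃L[ℝ] ℂ) (A' : E →L[ℝ] ℂ) (hg : HasStrictFDerivAt g (A : E →L[ℝ] ℂ) y)
    (hg' : HasStrictFDerivAt g' A' y) :
    (fun p : E × E => (g' p.1 - g' p.2) - (A'.comp (A.symm : ℂ →L[ℝ] E)) (g p.1 - g p.2))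
      =o[𝓝 (y, y)] (fun p : E × E => g p.1 - g p.2) := by
  have hTh := hg.isTheta_sub A.toHomeomorph.isInducing
  have h1 : (fun p : E × E => g p.1 - g p.2 - A (p.1 - p.2)) =o[𝓝 (y, y)] (fun p => p.1 - p.2) :=
    hg.isLittleO
  have h2 : (fun p : E × E => g' p.1 - g' p.2 - A' (p.1 - p.2)) =o[𝓝 (y, y)]
      (fun p => p.1 - p.2) := hg'.isLittleO
  have h3 : (fun p : E × E => (A'.comp (A.symm : ℂ →L[ℝ] E)) (g p.1 - g p.2 - A (p.1 - p.2)))
      =o[𝓝 (y, y)] (fun p => p.1 - p.2) :=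
    ((A'.comp (A.symm : ℂ →L[ℝ] E)).isBigO_comp _ _).trans_isLittleO h1
  have h4 := h2.sub h3
  refine IsLittleO.trans_isBigO ?_ hTh.isBigO_symm
  refine h4.congr_left ?_
  intro p
  simp only [map_sub, ContinuousLinearMap.comp_apply, ContinuousLinearEquiv.coe_coe,
    ContinuousLinearEquiv.symm_apply_apply]
  ring

end Pool.Agent.Helper57.Cut
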